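import Pool.Agent.H923R2.FP.Stubs

/-! The identity `l* c l = τ(c)`. -/

set_option autoImplicit false

open scoped ComplexConjugate

namespace Pool.Agent.H923R2.FP.T_N2

open Pool.Agent.H923R2.FP

theorem ssum_exch0 {Q R : Type} {M : Type} [AddCommMonoid M]
    (H : List (Lt Q R) → List (Lt Q R) → List (Lt Q R) → M) (l w : List (Lt Q R)) :
    ssum (fun a b => ssum (fun x y => H x y b) [] a) l w =
      ssum (fun x r => ssum (H x) [] r) l w + ssum (fun x y => ssum (H x) y w) [] l := by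
  induction w generalizing l with
  | nil =>
    rw [ssum_nil, ssum_nil, zero_add]
    have : ∀ l' l : List (Lt Q R), ssum (fun x y => ssum (H x) y []) l' l = (0 : M) := by
      intro l' l
      induction l generalizing l' with
      | nil => rfl
      | cons z l ih =>
        rw [ssum_cons, ih]
        simp
    rw [this]
  | cons z w ih =>
    rw [ssum_cons, ih, ssum_append, ssum_cons, ssum_nil, add_zero, List.nil_append, ssum_cons]
    have h : ssum (fun x y => ssum (H x) y (z :: w)) [] l =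
        ssum (fun x y => if z.isS then H x y w else 0) [] l +
          ssum (fun x y => ssum (H x) (y ++ [z]) w) [] l := by
      rw [← ssum_add]
      rfl
    rw [h]
    have h3 : ∀ l' l : List (Lt Q R), ssum (fun _ _ => (0 : M)) l' l = 0 := by
      intro l' l
      induction l generalizing l' with
      | nil => rfl
      | cons z l ih =>
        rw [ssum_cons, ih]
        simp
    cases z.isS
    · simp only [Bool.false_eq_true, if_false, h3]
      abel
    · simp only [if_true]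
      abel

theorem ssum_exch {Q R : Type} {M : Type} [AddCommMonoid M]
    (H : List (Lt Q R) → List (Lt Q R) → List (Lt Q R) → M) (w : List (Lt Q R)) :
    ssum (fun a b => ssum (fun x y => H x y b) [] a) [] w =
      ssum (fun x r => ssum (H x) [] r) [] w := by
  rw [ssum_exch0, ssum_nil, add_zero]

theorem key {A Q R : Type} [CStarAlgebra A] [Ring Q] [StarRing Q] [Algebra ℂ Q]
    [Ring R] [StarRing R] [Algebra ℂ R] {τ : A →ₗ[ℂ] ℂ} {π : Q →⋆ₐ[ℂ] A} {ρ : R →⋆ₐ[ℂ] A} {s : A}
    (hτ : FTS τ) (hS : Sys τ π ρ s) (c w : List (Lt Q R)) (hc : ∀ z ∈ c, z.isS = false) :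
    Ls τ (vl π ρ s) (c ++ Lt.s :: w) =
      τ (ev (vl π ρ s) c) • ev (vl π ρ s) w +
        ssum (fun l r => τ (ev (vl π ρ s) l) • Ls τ (vl π ρ s) (c ++ r)) [] w := by
  unfold Ls
  rw [ssum_append, ssum_noS _ _ c hc, zero_add, List.nil_append, ssum_cons]
  have e0 : (Lt.s : Lt Q R).isS = true := rfl
  rw [e0, if_pos rfl]
  congr 1
  have h1 := ssum_shift (fun l r => τ (ev (vl π ρ s) l) • ev (vl π ρ s) r) (c ++ [Lt.s]) [] w
  rw [List.append_nil] at h1
  rw [h1]
  have h2 : ∀ a : List (Lt Q R), τ (ev (vl π ρ s) (c ++ [Lt.s] ++ a)) =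
      ssum (fun x y => τ (ev (vl π ρ s) x) * τ (ev (vl π ρ s) (c ++ y))) [] a := by
    intro a
    have : τ (ev (vl π ρ s) (c ++ [Lt.s] ++ a)) = τ (s * ev (vl π ρ s) (a ++ c)) := by
      rw [ev_append, ev_append, ev_cons, ev_nil, mul_one, vl_s, ev_append, mul_assoc, hτ.comm,
        mul_assoc]
    rw [this, hS.sd, ssum_append, ssum_noS _ _ c hc, add_zero]
    apply ssum_congr
    intro x y
    rw [ev_append, ev_append, hτ.comm (ev (vl π ρ s) y)]
  have h3 : (fun a b => τ (ev (vl π ρ s) (c ++ [Lt.s] ++ a)) • ev (vl π ρ s) b) =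
      fun a b => ssum (fun x y => (τ (ev (vl π ρ s) x) * τ (ev (vl π ρ s) (c ++ y))) •
        ev (vl π ρ s) b) [] a := by
    funext a b
    rw [h2]
    exact ssum_map (AddMonoidHom.mk' (fun t : ℂ => t • ev (vl π ρ s) b)
      (fun x y => add_smul x y _)) _ _ _
  rw [h3, ssum_exch]
  apply ssum_congr
  intro x r
  rw [ssum_append, ssum_noS _ _ c hc, zero_add, List.nil_append]
  have h4 := ssum_shift (fun l r => τ (ev (vl π ρ s) l) • ev (vl π ρ s) r) c [] r
  rw [List.append_nil] at h4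
  rw [h4]
  have h5 := ssum_map (AddMonoidHom.mk' (fun t : A => τ (ev (vl π ρ s) x) • t)
      (fun y z => smul_add _ y z))
    (fun a b => τ (ev (vl π ρ s) (c ++ a)) • ev (vl π ρ s) b) [] r
  refine Eq.trans ?_ h5.symm
  apply ssum_congr
  intro a b
  exact mul_smul _ _ _

theorem t_N2 : S_N2 := by
  intro A Q R _ _ _ _ _ _ _ τ π ρ s hτ hS hN c v w hc
  have e0 : ∀ x : List (Lt Q R), τ (star (s * ev (vl π ρ s) v - Ls τ (vl π ρ s) v) *
      ev (vl π ρ s) x) = τ (star (ev (vl π ρ s) v) * Ls τ (vl π ρ s) x) := fun x => (hN v x).symm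
  have e1 : star (s * ev (vl π ρ s) v - Ls τ (vl π ρ s) v) * ev (vl π ρ s) c *
      (s * ev (vl π ρ s) w - Ls τ (vl π ρ s) w) =
      star (s * ev (vl π ρ s) v - Ls τ (vl π ρ s) v) * ev (vl π ρ s) (c ++ Lt.s :: w) -
      star (s * ev (vl π ρ s) v - Ls τ (vl π ρ s) v) * (ev (vl π ρ s) c * Ls τ (vl π ρ s) w) := by
    rw [mul_sub, ev_append, ev_cons, vl_s, mul_assoc, mul_assoc]
  have e2 : τ (star (s * ev (vl π ρ s) v - Ls τ (vl π ρ s) v) *
      (ev (vl π ρ s) c * Ls τ (vl π ρ s) w)) =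
      τ (star (ev (vl π ρ s) v) * ssum (fun l r => τ (ev (vl π ρ s) l) •
        Ls τ (vl π ρ s) (c ++ r)) [] w) := by
    have h1 := ssum_map (AddMonoidHom.mk' (fun x : A =>
      τ (star (s * ev (vl π ρ s) v - Ls τ (vl π ρ s) v) * (ev (vl π ρ s) c * x)))
      (fun x y => by simp only [mul_add, map_add]))
      (fun l r => τ (ev (vl π ρ s) l) • ev (vl π ρ s) r) [] w
    have h2 := ssum_map (AddMonoidHom.mk' (fun x : A => τ (star (ev (vl π ρ s) v) * x))
      (fun x y => by simp only [mul_add, map_add]))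
      (fun l r => τ (ev (vl π ρ s) l) • Ls τ (vl π ρ s) (c ++ r)) [] w
    refine Eq.trans h1 (Eq.trans ?_ h2.symm)
    apply ssum_congr
    intro a b
    show τ (_ * (_ * (_ • _))) = τ (_ * (_ • _))
    rw [mul_smul_comm, mul_smul_comm, mul_smul_comm, map_smul, map_smul, ← ev_append, e0]
  rw [e1, map_sub, e0, e2, ← map_sub, ← mul_sub, key hτ hS c w hc, add_sub_cancel_right,
    mul_smul_comm, map_smul, smul_eq_mul]

end Pool.Agent.H923R2.FP.T_N2
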