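import Pool.Agent.H923R2.FP.Stubs

/-! `phi` between two reduced words. -/

set_option autoImplicit false

open scoped ComplexConjugate

namespace Pool.Agent.H923R2.FP.T_PH

open Pool.Agent.H923R2.FP

variable {A Q R : Type} [CStarAlgebra A] [Ring Q] [StarRing Q] [Algebra ℂ Q]
  [Ring R] [StarRing R] [Algebra ℂ R] {τ : A →ₗ[ℂ] ℂ} {π : Q →⋆ₐ[ℂ] A} {ρ : R →⋆ₐ[ℂ] A} {s : A}

theorem red_left {θ : Lt Q R → A} {a b : List (Lt Q R)} (h : Red τ θ (a ++ b)) : Red τ θ a :=
  ⟨⟨fun z hz => h.1.1 z (List.mem_append_left _ hz), h.1.2.left_of_append⟩,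
    fun z hz => h.2 z (List.mem_append_left _ hz)⟩

theorem red_right {θ : Lt Q R → A} {a b : List (Lt Q R)} (h : Red τ θ (a ++ b)) : Red τ θ b :=
  ⟨⟨fun z hz => h.1.1 z (List.mem_append_right _ hz), h.1.2.right_of_append⟩,
    fun z hz => h.2 z (List.mem_append_right _ hz)⟩

theorem phi_red0 (hS : Sys τ π ρ s) (β : A) (a a' : List (Lt Q R)) (ha' : a' ≠ [])
    (h : Red τ (vl π ρ s) (a' ++ a)) :
    phi τ (vl π ρ s) β (ev (vl π ρ s) a') a = 0 := by
  induction a generalizing a' with
  | nil => rfl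
  | cons z a ih =>
    have h1 : Red τ (vl π ρ s) (a' ++ [z] ++ a) := by
      rw [List.append_assoc]
      exact h
    have h2 := ih (a' ++ [z]) (by simp) h1
    have h3 : τ (ev (vl π ρ s) a') = 0 :=
      hS.free a' ha' (red_left h).1 (red_left h).2
    have h4 : τ (ev (vl π ρ s) (a' ++ [z])) = 0 :=
      hS.free (a' ++ [z]) (by simp) (red_left h1).1 (red_left h1).2
    rw [ev_append, ev_cons, ev_nil, mul_one] at h2 h4
    rw [phi_cons, h2, h3, h4]
    simp

theorem phi_redA (hτ : FTS τ) (hS : Sys τ π ρ s) (β : A) (a : List (Lt Q R))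
    (h : Red τ (vl π ρ s) a) :
    phi τ (vl π ρ s) β 1 a = -(ind (hq a) * τ (ev (vl π ρ s) a * β)) := by
  cases a with
  | nil =>
    have : ¬ hq ([] : List (Lt Q R)) := by simp [hq]
    simp [ind, this]
  | cons z a =>
    have h1 := phi_red0 hS β a [z] (by simp) h
    rw [ev_cons, ev_nil, mul_one] at h1
    have h2 : τ (vl π ρ s z) = 0 := h.2 z (by simp)
    rw [phi_cons, one_mul, h1, h2, hτ.one, ev_cons]
    by_cases hz : z.isQ = true
    · have : hq (z :: a) := by simp [hq, hz]
      simp [ind, this, hz]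
    · have : ¬ hq (z :: a) := by simp [hq, hz]
      simp [ind, this, hz]

theorem phi_redB (hτ : FTS τ) (hS : Sys τ π ρ s) (α : A) (b : List (Lt Q R))
    (h : Red τ (vl π ρ s) b) :
    phi τ (vl π ρ s) 1 α b = ind (lq b) * τ (α * ev (vl π ρ s) b) := by
  induction b generalizing α with
  | nil =>
    have : ¬ lq ([] : List (Lt Q R)) := by simp [lq]
    simp [ind, this]
  | cons z b ih =>
    have hb : Red τ (vl π ρ s) b := red_right (a := [z]) h
    have h0 : τ (ev (vl π ρ s) (z :: b)) = 0 := hS.free _ (by simp) h.1 h.2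
    rw [ev_cons] at h0
    rw [phi_cons, ih _ hb, mul_one, mul_one, h0, mul_zero, sub_zero, ev_cons, mul_assoc]
    by_cases hb0 : b = []
    · subst hb0
      rw [ev_nil, hτ.one]
      have h1 : ¬ lq ([] : List (Lt Q R)) := by simp [lq]
      by_cases hz : z.isQ = true
      · have : lq [z] := by simp [lq, hz]
        simp [ind, this, hz, h1]
      · have : ¬ lq [z] := by simp [lq, hz]
        simp [ind, this, hz, h1]
    · have h1 : τ (ev (vl π ρ s) b) = 0 := hS.free _ hb0 hb.1 hb.2
      rw [h1]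
      have h2 : lq (z :: b) ↔ lq b := by
        unfold lq
        rw [List.getLast?_cons_of_ne_nil hb0]
      have h3 : ind (lq (z :: b)) = ind (lq b) := congrArg ind (propext h2)
      rw [h3]
      simp

theorem t_PH : S_PH := by
  intro A Q R _ _ _ _ _ _ _ τ π ρ s hτ hS h0 a b ha hb w
  have h1 := h0 (a ++ (w ++ b))
  rw [phi_append, phi_append, phi_redA hτ hS _ a ha, phi_redB hτ hS _ b hb, mul_one, one_mul,
    mul_one, ev_append] at h1
  rw [sub_mul]
  rw [← mul_assoc] at h1
  linear_combination h1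

end Pool.Agent.H923R2.FP.T_PH
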