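import Pool.Agent.H383.PZ.Defs

/-! Task T4 (helper797 for helper383): contour shift past the rectangle `[-1/2,2] × [-1,1]`. -/

set_option autoImplicit false

open MeasureTheory Filter Topology

namespace Pool.Agent.H797R2.PZ

open Pool.Agent.H383.PZ

theorem integrable_decay : Integrable (fun y : ℝ => (1 + |y|) ^ (-2 : ℝ)) := by
  have := integrable_one_add_norm (E := ℝ) (μ := volume) (r := 2) (by simp)
  simpa using this

theorem vertical {G : ℂ → ℂ} {c C : ℝ}
    (hd : ∀ s : ℂ, s.re = c → ContinuousAt G s)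
    (hB : ∀ s : ℂ, s.re = c → 1 ≤ |s.im| → ‖G s‖ ≤ C * (1 + |s.im|) ^ (-2 : ℝ)) :
    Continuous (fun y : ℝ => G (c + y * Complex.I)) ∧
      Integrable (fun y : ℝ => G (c + y * Complex.I)) := by
  have hc : Continuous (fun y : ℝ => G (c + y * Complex.I)) := by
    rw [continuous_iff_continuousAt]
    intro y
    have h1 : ContinuousAt G ((c : ℂ) + y * Complex.I) := hd _ (by simp)
    exact ContinuousAt.comp (f := fun y : ℝ => (c : ℂ) + y * Complex.I) h1 (by fun_prop)
  refine ⟨hc, ?_⟩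
  obtain ⟨M, hM⟩ := (isCompact_Icc (a := (-1 : ℝ)) (b := 1)).exists_bound_of_continuousOn
    hc.continuousOn
  have hM0 : 0 ≤ M := (norm_nonneg _).trans (hM 0 (by simp))
  have hC0 : 0 ≤ C := by
    have := (norm_nonneg _).trans (hB (c + ((1:ℝ):ℂ) * Complex.I) (by simp) (by simp))
    have h2 : 0 < (1 + |((c:ℂ) + ((1:ℝ):ℂ) * Complex.I).im|) ^ (-2 : ℝ) := by positivity
    exact nonneg_of_mul_nonneg_left this h2
  refine (integrable_decay.const_mul (C + 4 * M)).mono' hc.aestronglyMeasurable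
    (Eventually.of_forall fun y => ?_)
  have h0 : 0 < (1 + |y|) ^ (-2 : ℝ) := by positivity
  rcases le_total 1 |y| with h | h
  · have h1 := hB (c + y * Complex.I) (by simp) (by simpa using h)
    have h2 : ((c:ℂ) + y * Complex.I).im = y := by simp
    rw [h2] at h1
    nlinarith [mul_nonneg hM0 h0.le]
  · have h1 := hM y (abs_le.1 h)
    have h2 : 1 / 4 ≤ (1 + |y|) ^ (-2 : ℝ) := by
      have h3 : (1 + |y|) ^ (-2 : ℝ) = ((1 + |y|) ^ 2)⁻¹ := by
        rw [Real.rpow_neg (by positivity)]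
        norm_num
      rw [h3, one_div]
      apply inv_anti₀ (by positivity)
      have := abs_nonneg y
      nlinarith
    nlinarith [mul_nonneg hC0 h0.le]

/-- a contour shift past the rectangle `[a,b] × [-1,1]` -/
theorem rect_shift {G : ℂ → ℂ} {a b C : ℝ} (hab : a ≤ b)
    (hd : ∀ s : ℂ, a ≤ s.re → s.re ≤ b → (1 ≤ |s.im| ∨ s.re = a ∨ s.re = b) →
      DifferentiableAt ℂ G s)
    (hB : ∀ s : ℂ, a ≤ s.re → s.re ≤ b → 1 ≤ |s.im| → ‖G s‖ ≤ C * (1 + |s.im|) ^ (-2 : ℝ)) :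
    Complex.I * (∫ y : ℝ, G (b + y * Complex.I)) - Complex.I * (∫ y : ℝ, G (a + y * Complex.I)) =
      Rect G a b := by
  obtain ⟨ca, ia⟩ := vertical (G := G) (c := a) (C := C)
    (fun s hs => (hd s hs.ge (hs.le.trans hab) (Or.inr (Or.inl hs))).continuousAt)
    (fun s hs => hB s hs.ge (hs.le.trans hab))
  obtain ⟨cb, ib⟩ := vertical (G := G) (c := b) (C := C)
    (fun s hs => (hd s (hab.trans hs.ge) hs.le (Or.inr (Or.inr hs))).continuousAt)
    (fun s hs => hB s (hab.trans hs.ge) hs.le)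
  -- rectangles
  have hrect : ∀ u v : ℝ, u ≤ v → (1 ≤ u ∨ v ≤ -1) →
      (∫ x in a..b, G (x + (u : ℝ) * Complex.I)) - (∫ x in a..b, G (x + (v : ℝ) * Complex.I)) +
        Complex.I * (∫ y in u..v, G (b + y * Complex.I)) -
        Complex.I * (∫ y in u..v, G (a + y * Complex.I)) = 0 := by
    intro u v huv h1
    have := Complex.integral_boundary_rect_eq_zero_of_differentiableOn G ⟨a, u⟩ ⟨b, v⟩ ?_
    · simpa using this
    · intro s hs
      rw [Complex.mem_reProdIm] at hs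
      simp only at hs
      rw [Set.uIcc_of_le hab, Set.uIcc_of_le huv] at hs
      refine (hd s hs.1.1 hs.1.2 (Or.inl ?_)).differentiableWithinAt
      rcases h1 with h1 | h1
      · exact h1.trans (hs.2.1.trans (le_abs_self _))
      · have := neg_le_abs s.im
        have h2 := hs.2.2
        linarith
  have hC0 : 0 ≤ C := by
    have := (norm_nonneg _).trans (hB (a + ((1:ℝ):ℂ) * Complex.I) (by simp) (by simpa using hab)
      (by simp))
    have h2 : 0 < (1 + |((a:ℂ) + ((1:ℝ):ℂ) * Complex.I).im|) ^ (-2 : ℝ) := by positivity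
    exact nonneg_of_mul_nonneg_left this h2
  have hhor : ∀ T : ℝ, 1 ≤ |T| → ‖∫ x in a..b, G (x + (T : ℝ) * Complex.I)‖ ≤
      C * (1 + |T|) ^ (-2 : ℝ) * |b - a| := by
    intro T hT
    refine intervalIntegral.norm_integral_le_of_norm_le_const fun x hx => ?_
    rw [Set.uIoc_of_le hab] at hx
    have := hB (x + (T : ℝ) * Complex.I) (by simpa using hx.1.le) (by simpa using hx.2)
      (by simpa using hT)
    simpa using this
  have hlim0 : Tendsto (fun T : ℝ => C * (1 + |T|) ^ (-2 : ℝ) * |b - a|) atTop (𝓝 0) := by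
    have h1 : Tendsto (fun T : ℝ => (1 + |T|)) atTop atTop :=
      tendsto_atTop_add_const_left _ _ tendsto_abs_atTop_atTop
    have h2 := (tendsto_rpow_neg_atTop (y := 2) (by norm_num)).comp h1
    have h3 := (h2.const_mul C).mul_const |b - a|
    simpa using h3
  have hl1 : Tendsto (fun T : ℝ => ∫ x in a..b, G (x + (T : ℝ) * Complex.I)) atTop (𝓝 0) := by
    refine squeeze_zero_norm' ?_ hlim0
    filter_upwards [eventually_ge_atTop 1] with T hT
    exact hhor T (hT.trans (le_abs_self _))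
  have hl2 : Tendsto (fun T : ℝ => ∫ x in a..b, G (x + ((-T : ℝ) : ℂ) * Complex.I)) atTop
      (𝓝 0) := by
    refine squeeze_zero_norm' (a := fun T : ℝ => C * (1 + |T|) ^ (-2 : ℝ) * |b - a|) ?_ hlim0
    filter_upwards [eventually_ge_atTop 1] with T hT
    have := hhor (-T) (by rw [abs_neg]; exact hT.trans (le_abs_self _))
    rw [abs_neg] at this
    exact this
  have hl3 := intervalIntegral_tendsto_integral ib tendsto_neg_atTop_atBot tendsto_id
  have hl4 := intervalIntegral_tendsto_integral ia tendsto_neg_atTop_atBot tendsto_id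
  have hfin := ((hl2.sub hl1).add (hl3.const_mul Complex.I)).sub (hl4.const_mul Complex.I)
  have hconst : Tendsto (fun _ : ℝ => Rect G a b) atTop (𝓝 (Rect G a b)) := tendsto_const_nhds
  have huniq := tendsto_nhds_unique (hfin.congr' ?_) hconst
  · rw [sub_zero, zero_add] at huniq
    exact huniq
  · filter_upwards [eventually_ge_atTop 1] with T hT
    have e1 := hrect 1 T hT (Or.inl le_rfl)
    have e2 := hrect (-T) (-1) (by linarith) (Or.inr le_rfl)
    have e3 : ∀ F : ℝ → ℂ, Continuous F → ∫ y in (-T)..T, F y =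
        (∫ y in (-T)..(-1), F y) + (∫ y in (-1)..1, F y) + ∫ y in 1..T, F y := by
      intro F hF
      rw [intervalIntegral.integral_add_adjacent_intervals (hF.intervalIntegrable _ _)
        (hF.intervalIntegrable _ _), intervalIntegral.integral_add_adjacent_intervals
        (hF.intervalIntegrable _ _) (hF.intervalIntegrable _ _)]
    have e4 := e3 _ ca
    have e5 := e3 _ cb
    simp only [id]
    rw [e4, e5]
    unfold Rect
    linear_combination e1 + e2

theorem shift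
    (zeta_strip : ∃ C : ℝ, 0 < C ∧ ∀ s : ℂ, -(1/2) ≤ s.re → s.re ≤ 2 → 1 ≤ |s.im| →
      ‖riemannZeta s‖ ≤ C * |s.im| ^ 2)
    (Ke_diff : ∀ {δ : ℝ} (_hδ : 0 < δ) (n : ℕ) {R : ℝ} (_hR : 0 < R),
      Differentiable ℂ (Ke δ n R))
    (Ke_bound : ∀ (n : ℕ) (A : ℝ), ∃ C : ℝ, 0 < C ∧ ∀ (R δ : ℝ) (z : ℂ) (θ : ℝ),
      1 ≤ R → 0 < δ → δ ≤ 1/2 → |z.re| ≤ A → 0 ≤ θ → θ ≤ n →
        ‖Ke δ n R z‖ ≤ C * R ^ z.re * (R / (δ * (1 + |z.im|))) ^ θ)
    {k n : ℕ} (hk2 : 2 ≤ k) (hn : 2 * k + 2 ≤ n) {R δ : ℝ} (hR : 1 ≤ R) (hδ : 0 < δ)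
    (hδ2 : δ ≤ 1/2) :
    ∫ t : ℝ, Gk k δ n R (2 + t * Complex.I) =
      (∫ t : ℝ, Gk k δ n R (-(1/2) + t * Complex.I)) -
        Complex.I * Rect (Gk k δ n R) (-(1/2)) 2 := by
  obtain ⟨C1, hC1, hz⟩ := zeta_strip
  set A : ℝ := 2 * k + |hk k| with hA
  obtain ⟨C2, hC2, hKe⟩ := Ke_bound n A
  have hk0 : (1 : ℝ) ≤ k := by exact_mod_cast (by omega : 1 ≤ k)
  have hR0 : 0 < R := by linarith
  set C : ℝ := C1 ^ k * (C2 * R ^ A * (R / δ) ^ (2 * k + 2)) with hC
  have hbound : ∀ s : ℂ, -(1/2) ≤ s.re → s.re ≤ 2 → 1 ≤ |s.im| →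
      ‖Gk k δ n R s‖ ≤ C * (1 + |s.im|) ^ (-2 : ℝ) := by
    intro s h1 h2 h3
    have hs0 : 1 ≤ ‖s‖ := h3.trans (Complex.abs_im_le_norm s)
    set z : ℂ := k * s - (hk k : ℂ) with hzdef
    have hzre : z.re = k * s.re - hk k := by simp [hzdef]
    have hzim : z.im = k * s.im := by simp [hzdef]
    have hzA : |z.re| ≤ A := by
      rw [hzre, hA]
      have h4 : |(k : ℝ) * s.re| ≤ 2 * k := by
        rw [abs_mul, abs_of_nonneg (by positivity : (0:ℝ) ≤ k)]
        have h5 : |s.re| ≤ 2 := abs_le.2 ⟨by linarith, h2⟩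
        nlinarith
      calc |(k : ℝ) * s.re - hk k| ≤ |(k : ℝ) * s.re| + |hk k| := abs_sub _ _
        _ ≤ _ := by linarith
    have hK := hKe R δ z ((2 * k + 2 : ℕ) : ℝ) hR hδ hδ2 hzA (by positivity) (by exact_mod_cast hn)
    rw [Real.rpow_natCast] at hK
    have hK2 : ‖Ke δ n R z‖ ≤ C2 * R ^ A * ((R / δ) ^ (2 * k + 2) / (1 + |s.im|) ^ (2 * k + 2)) := by
      refine hK.trans ?_
      have h5 : R ^ z.re ≤ R ^ A := Real.rpow_le_rpow_of_exponent_le hR ((le_abs_self _).trans hzA)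
      have h6 : R / (δ * (1 + |z.im|)) ≤ (R / δ) / (1 + |s.im|) := by
        rw [div_div]
        apply div_le_div_of_nonneg_left hR0.le (by positivity)
        apply mul_le_mul_of_nonneg_left _ hδ.le
        rw [hzim, abs_mul, abs_of_nonneg (by positivity : (0:ℝ) ≤ k)]
        have := abs_nonneg s.im
        nlinarith
      calc C2 * R ^ z.re * (R / (δ * (1 + |z.im|))) ^ (2 * k + 2) ≤
          C2 * R ^ A * ((R / δ) / (1 + |s.im|)) ^ (2 * k + 2) := by gcongr
        _ = _ := by rw [div_pow]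
    have hZ : ‖riemannZeta s ^ k‖ ≤ C1 ^ k * (1 + |s.im|) ^ (2 * k) := by
      rw [norm_pow]
      calc ‖riemannZeta s‖ ^ k ≤ (C1 * |s.im| ^ 2) ^ k := by
            gcongr
            exact hz s h1 h2 h3
        _ = C1 ^ k * |s.im| ^ (2 * k) := by rw [mul_pow, ← pow_mul]
        _ ≤ _ := by
          gcongr
          linarith
    unfold Gk
    rw [norm_mul, norm_div]
    have hs1 : ‖riemannZeta s ^ k‖ / ‖s‖ ≤ C1 ^ k * (1 + |s.im|) ^ (2 * k) := by
      refine (div_le_self (norm_nonneg _) hs0).trans hZ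
    calc ‖riemannZeta s ^ k‖ / ‖s‖ * ‖Ke δ n R z‖ ≤ (C1 ^ k * (1 + |s.im|) ^ (2 * k)) *
        (C2 * R ^ A * ((R / δ) ^ (2 * k + 2) / (1 + |s.im|) ^ (2 * k + 2))) := by gcongr
      _ = C * (1 + |s.im|) ^ (-2 : ℝ) := by
        have h7 : (1 + |s.im|) ^ (-2 : ℝ) = ((1 + |s.im|) ^ 2)⁻¹ := by
          rw [Real.rpow_neg (by positivity)]
          norm_num
        rw [h7, hC, pow_add (1 + |s.im|) (2 * k) 2]
        field_simp
  have hdiff : ∀ s : ℂ, s ≠ 0 → s ≠ 1 → DifferentiableAt ℂ (Gk k δ n R) s := by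
    intro s h0 h1
    unfold Gk
    have hK := Ke_diff hδ n hR0
    exact (((differentiableAt_riemannZeta h1).pow k).div differentiableAt_id h0).mul
      ((hK _).comp s (by fun_prop : DifferentiableAt ℂ (fun s : ℂ => (k : ℂ) * s - (hk k : ℂ)) s))
  have main := rect_shift (G := Gk k δ n R) (a := -(1/2)) (b := 2) (C := C) (by norm_num)
    (fun s h1 h2 h3 => by
      apply hdiff
      · rintro rfl
        rcases h3 with h3 | h3 | h3 <;> norm_num at h3
      · rintro rfl
        rcases h3 with h3 | h3 | h3 <;> norm_num at h3) hbound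
  push_cast at main
  have hI : Complex.I * Complex.I = -1 := Complex.I_mul_I
  linear_combination (-Complex.I) * main + ((∫ t : ℝ, Gk k δ n R (2 + t * Complex.I)) -
    ∫ t : ℝ, Gk k δ n R (-(1/2) + t * Complex.I)) * hI

end Pool.Agent.H797R2.PZ
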