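import Mathlib
import Pool.Agent.H410R2.ENIface3
import Pool.Agent.H378R2.LSBV7
import Pool.Agent.Helper923.PNT

/-! Equidistribution of prime weights: auxiliary results. -/

set_option autoImplicit false

open Finset Filter Topology

namespace Pool.Agent.H797R2.PE

open Pool.Agent.H410R2.AC Pool.Agent.H410R2.EN Pool.Agent.H378R2

/-! ### lower bound for the total weight -/

theorem Phi_lower (u : ℝ) (h1 : 3 / 2 ≤ u) (h2 : u ≤ 2) : 1 / 4 ≤ Phi u := by
  unfold Phi
  have hl1 : 1 / 3 ≤ Real.log u := by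
    have := Real.one_sub_inv_le_log_of_pos (show 0 < u by linarith)
    have h3 : u⁻¹ ≤ 2 / 3 := by
      rw [inv_le_comm₀ (by linarith) (by norm_num)]
      linarith
    linarith
  have hl2 : Real.log u ≤ 0.7 := by
    have h4 := Real.log_le_log (show 0 < u by linarith) h2
    have := Real.log_two_lt_d9
    linarith
  refine le_trans ?_ (le_max_right _ _)
  have : |Real.log u - 1 / 2| ≤ 1 / 4 := by
    rw [abs_le]; constructor <;> linarith
  linarith

theorem PsiT_ge (X : ℝ) (hX : 1 ≤ X) :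
    (1 / 4) * (Chebyshev.psi (2 * X) - Chebyshev.psi (3 / 2 * X)) ≤ PsiT X := by
  have hle : ⌊3 / 2 * X⌋₊ ≤ ⌊2 * X⌋₊ := Nat.floor_le_floor (by linarith)
  have h1 : Chebyshev.psi (2 * X) - Chebyshev.psi (3 / 2 * X) =
      ∑ n ∈ Ioc ⌊3 / 2 * X⌋₊ ⌊2 * X⌋₊, ArithmeticFunction.vonMangoldt n := by
    unfold Chebyshev.psi
    rw [← Finset.sum_Ioc_consecutive (fun n => ArithmeticFunction.vonMangoldt n)
      (Nat.zero_le _) hle]
    ring
  rw [h1, mul_sum]
  calc ∑ n ∈ Ioc ⌊3 / 2 * X⌋₊ ⌊2 * X⌋₊, 1 / 4 * ArithmeticFunction.vonMangoldt n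
      ≤ ∑ n ∈ Ioc ⌊3 / 2 * X⌋₊ ⌊2 * X⌋₊, Phi (n / X) * ArithmeticFunction.vonMangoldt n := by
        apply sum_le_sum
        intro n hn
        rw [mem_Ioc] at hn
        apply mul_le_mul_of_nonneg_right _ ArithmeticFunction.vonMangoldt_nonneg
        apply Phi_lower
        · rw [le_div_iff₀ (by linarith)]
          exact (Nat.lt_of_floor_lt hn.1).le
        · rw [div_le_iff₀ (by linarith)]
          exact (Nat.le_floor_iff (by linarith)).mp hn.2
    _ ≤ PsiT X := by
        unfold PsiT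
        apply sum_le_sum_of_subset_of_nonneg
        · intro n hn
          rw [mem_Ioc] at hn
          rw [mem_range]
          have : ⌊2 * X⌋₊ ≤ ⌊3 * X⌋₊ := Nat.floor_le_floor (by linarith)
          omega
        · intro n _ _
          exact mul_nonneg (LSBV.Phi_nonneg _) ArithmeticFunction.vonMangoldt_nonneg

theorem PsiT_lower : ∃ X0 : ℝ, ∀ X : ℝ, X0 ≤ X → 1 / 20 * X ≤ PsiT X := by
  have h := Pool.Agent.Helper923.PNT.psi_div_tendsto
  have h1 : ∀ᶠ x : ℝ in atTop, Chebyshev.psi x / x < 1.05 := h.eventually_lt_const (by norm_num)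
  have h2 : ∀ᶠ x : ℝ in atTop, 0.95 < Chebyshev.psi x / x := h.eventually_const_lt (by norm_num)
  obtain ⟨x0, hx0⟩ := eventually_atTop.mp (h1.and h2)
  refine ⟨max x0 1, fun X hX => ?_⟩
  have hX1 : 1 ≤ X := le_trans (le_max_right _ _) hX
  have hXx : x0 ≤ X := le_trans (le_max_left _ _) hX
  have a1 := (hx0 (2 * X) (by linarith)).2
  have a2 := (hx0 (3 / 2 * X) (by linarith)).1
  rw [lt_div_iff₀ (by linarith)] at a1
  rw [div_lt_iff₀ (by linarith)] at a2
  have := PsiT_ge X hX1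
  linarith

/-! ### the arithmetic -/

theorem PsiT_eq (X : ℝ) : PsiT X = ∑ n ∈ Icc 1 ⌊3 * X⌋₊,
    Phi (n / X) * ArithmeticFunction.vonMangoldt n := by
  unfold PsiT
  symm
  apply sum_subset
  · intro n hn
    rw [mem_Icc] at hn
    rw [mem_range]
    omega
  · intro n hn hn'
    rw [mem_range] at hn
    rw [mem_Icc] at hn'
    have : n = 0 := by omega
    subst this
    simp

theorem EPhi_mod (X : ℝ) (m b b' : ℕ) (h : b ≡ b' [MOD m]) : EPhi X m b = EPhi X m b' := by
  unfold EPhi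
  congr 2
  ext n
  simp only [mem_filter]
  refine and_congr_right fun _ => ⟨fun h1 => h1.trans h, fun h1 => h1.trans h.symm⟩

/-- the worst class -/
theorem exists_bmax (X : ℝ) (m : ℕ) (hm : 1 ≤ m) : ∃ b0 : ℕ, b0.Coprime m ∧
    ∀ b : ℕ, b.Coprime m → |EPhi X m b| ≤ |EPhi X m b0| := by
  have hne : ((range m).filter (fun b => b.Coprime m)).Nonempty := by
    rcases Nat.lt_or_ge 1 m with h | h
    · exact ⟨1, by rw [mem_filter, mem_range]; exact ⟨h, Nat.coprime_one_left m⟩⟩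
    · have : m = 1 := by omega
      subst this
      exact ⟨0, by simp⟩
  obtain ⟨b0, hb0, hmax⟩ := exists_max_image _ (fun b => |EPhi X m b|) hne
  rw [mem_filter] at hb0
  refine ⟨b0, hb0.2, fun b hb => ?_⟩
  have h1 : EPhi X m b = EPhi X m (b % m) := EPhi_mod X m _ _ (Nat.mod_modEq b m).symm
  rw [h1]
  apply hmax
  rw [mem_filter, mem_range]
  refine ⟨Nat.mod_lt _ (by omega), ?_⟩
  have := (Nat.mod_modEq b m).gcd_eq
  unfold Nat.Coprime at hb ⊢
  rw [this, hb]

/-- CRT -/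
theorem crt (Q : ℕ) (T : Finset ℕ) (hT : ∀ p ∈ T, p.Prime) (hQT : ∀ p ∈ T, p.Coprime Q)
    (b : ℕ) (hb : b.Coprime Q) (c : ℕ → ℕ) (hc : ∀ p ∈ T, c p < p ∧ c p ≠ 0) :
    ∃ b' : ℕ, b'.Coprime (Q * ∏ p ∈ T, p) ∧
      ∀ m : ℕ, m ≡ b' [MOD Q * ∏ p ∈ T, p] ↔ (m % Q = b % Q ∧ ∀ p ∈ T, m % p = c p) := by
  classical
  induction T using Finset.induction_on with
  | empty =>
    refine ⟨b, by simpa using hb, fun m => ?_⟩
    simp [Nat.ModEq]
  | insert p T hp ih =>
    obtain ⟨b', hb', hm⟩ := ih (fun q hq => hT q (mem_insert_of_mem hq))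
      (fun q hq => hQT q (mem_insert_of_mem hq)) (fun q hq => hc q (mem_insert_of_mem hq))
    have hpp := hT p (mem_insert_self _ _)
    have hcop : (Q * ∏ q ∈ T, q).Coprime p := by
      apply Nat.Coprime.mul_left (hQT p (mem_insert_self _ _)).symm
      apply Nat.Coprime.prod_left
      intro q hq
      exact (Nat.coprime_primes (hT q (mem_insert_of_mem hq)) hpp).mpr fun h => hp (h ▸ hq)
    obtain ⟨b'', h1, h2⟩ := Nat.chineseRemainder hcop b' (c p)
    have hcp := hc p (mem_insert_self _ _)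
    have hmodeq : ∀ m : ℕ, m ≡ b'' [MOD Q * ∏ q ∈ insert p T, q] ↔
        (m ≡ b'' [MOD Q * ∏ q ∈ T, q] ∧ m ≡ b'' [MOD p]) := by
      intro m
      rw [prod_insert hp, mul_left_comm, mul_comm p, Nat.modEq_and_modEq_iff_modEq_mul hcop]
    refine ⟨b'', ?_, fun m => ?_⟩
    · rw [prod_insert hp, mul_left_comm]
      apply Nat.Coprime.mul_right
      · rw [Nat.coprime_comm, Nat.Prime.coprime_iff_not_dvd hpp]
        intro hd
        have h3 : b'' % p = c p % p := h2
        rw [Nat.mod_eq_zero_of_dvd hd, Nat.mod_eq_of_lt hcp.1] at h3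
        exact hcp.2 h3.symm
      · unfold Nat.Coprime at hb' ⊢
        rw [h1.gcd_eq, hb']
    · rw [hmodeq]
      constructor
      · rintro ⟨h3, h4⟩
        have h5 := (hm m).mp (h3.trans h1)
        refine ⟨h5.1, fun q hq => ?_⟩
        rcases mem_insert.mp hq with rfl | hq
        · have h6 : m % q = c q % q := h4.trans h2
          rw [h6, Nat.mod_eq_of_lt hcp.1]
        · exact h5.2 q hq
      · rintro ⟨h3, h4⟩
        have h5 := (hm m).mpr ⟨h3, fun q hq => h4 q (mem_insert_of_mem hq)⟩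
        refine ⟨h5.trans h1.symm, ?_⟩
        have h6 : m ≡ c p [MOD p] := by
          unfold Nat.ModEq
          rw [h4 p (mem_insert_self _ _), Nat.mod_eq_of_lt hcp.1]
        exact h6.trans h2.symm

theorem totient_prod (Q : ℕ) (T : Finset ℕ) (hT : ∀ p ∈ T, p.Prime)
    (hQT : ∀ p ∈ T, p.Coprime Q) :
    ((Q * ∏ p ∈ T, p).totient : ℝ) = Q.totient * ∏ p ∈ T, ((p : ℝ) - 1) := by
  classical
  induction T using Finset.induction_on with
  | empty => simp
  | insert p T hp ih =>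
    have ih' := ih (fun q hq => hT q (mem_insert_of_mem hq))
      (fun q hq => hQT q (mem_insert_of_mem hq))
    have hpp := hT p (mem_insert_self _ _)
    have hcop : (Q * ∏ q ∈ T, q).Coprime p := by
      apply Nat.Coprime.mul_left (hQT p (mem_insert_self _ _)).symm
      apply Nat.Coprime.prod_left
      intro q hq
      exact (Nat.coprime_primes (hT q (mem_insert_of_mem hq)) hpp).mpr fun h => hp (h ▸ hq)
    rw [prod_insert hp, prod_insert hp, mul_left_comm, Nat.totient_mul hcop.symm,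
      Nat.totient_prime hpp, Nat.cast_mul, ih', Nat.cast_sub hpp.one_le, Nat.cast_one]
    ring

theorem card_divisors_prod (T : Finset ℕ) (hT : ∀ p ∈ T, p.Prime) :
    (∏ p ∈ T, p).divisors.card = 2 ^ T.card := by
  classical
  induction T using Finset.induction_on with
  | empty => simp
  | insert p T hp ih =>
    have ih' := ih (fun q hq => hT q (mem_insert_of_mem hq))
    have hpp := hT p (mem_insert_self _ _)
    have hcop : p.Coprime (∏ q ∈ T, q) := by
      apply Nat.Coprime.prod_right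
      intro q hq
      exact (Nat.coprime_primes hpp (hT q (mem_insert_of_mem hq))).mpr fun h => hp (h ▸ hq)
    rw [prod_insert hp, Nat.Coprime.card_divisors_mul hcop, ih', card_insert_of_notMem hp,
      Nat.Prime.divisors hpp, card_pair hpp.one_lt.ne]
    ring

/-- the sum in the definition of `Equid` -/
theorem sum_wP (X : ℝ) (Q b : ℕ) (T : Finset ℕ) (c : ℕ → ℕ) :
    ∑ m ∈ (range (⌊3 * X⌋₊ + 1)).filter (fun m => ∀ p ∈ T, m % p = c p), wP X Q b m =
      ∑ m ∈ (Icc 1 ⌊3 * X⌋₊).filter (fun m => m % Q = b % Q ∧ ∀ p ∈ T, m % p = c p),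
        Phi (m / X) * ArithmeticFunction.vonMangoldt m := by
  unfold wP
  rw [← sum_filter, filter_filter]
  symm
  apply sum_subset
  · intro m hm
    rw [mem_filter, mem_Icc] at hm
    rw [mem_filter, mem_range]
    exact ⟨by omega, hm.2.2, by omega, hm.2.1⟩
  · intro m hm hm'
    rw [mem_filter, mem_range] at hm
    rw [mem_filter, mem_Icc] at hm'
    have : m = 0 := by
      by_contra h0
      exact hm' ⟨by omega, hm.2.2.2, hm.2.1⟩
    subst this
    simp

/-- equidistribution, one set of primes -/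
theorem equid_one (X : ℝ) (hX : 1 ≤ X) (Q b : ℕ) (_hQ : 1 ≤ Q) (hb : b.Coprime Q) (T : Finset ℕ)
    (hT : ∀ p ∈ T, p.Prime) (hQT : ∀ p ∈ T, p.Coprime Q) (c : ℕ → ℕ) (hc : ∀ p ∈ T, c p < p)
    (E : ℝ) (hE : 0 ≤ E)
    (hmax : ∀ b' : ℕ, b'.Coprime (Q * ∏ p ∈ T, p) → |EPhi X (Q * ∏ p ∈ T, p) b'| ≤ E) :
    |∑ m ∈ (range (⌊3 * X⌋₊ + 1)).filter (fun m => ∀ p ∈ T, m % p = c p), wP X Q b m -
      (PsiT X / Q.totient) * ∏ p ∈ T, kP p (c p)| ≤ E + Real.log (3 * X) := by
  have hlog : 0 ≤ Real.log (3 * X) := Real.log_nonneg (by linarith)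
  rw [sum_wP]
  by_cases h0 : ∃ p ∈ T, c p = 0
  · obtain ⟨p, hp, hcp⟩ := h0
    have hprod : ∏ p ∈ T, kP p (c p) = 0 := by
      apply prod_eq_zero hp
      rw [hcp, kP, if_pos rfl]
    rw [hprod, mul_zero, sub_zero]
    have hnn : ∀ m : ℕ, 0 ≤ Phi (m / X) * ArithmeticFunction.vonMangoldt m := fun m =>
      mul_nonneg (LSBV.Phi_nonneg _) ArithmeticFunction.vonMangoldt_nonneg
    rw [abs_of_nonneg (sum_nonneg fun m _ => hnn m)]
    have hpp := hT p hp
    have h1 := LSBV.sum_ncPhi X hX p hpp.one_le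
    rw [Nat.Prime.primeFactors hpp, card_singleton, Nat.cast_one, one_mul] at h1
    have h2 : ∑ m ∈ (Icc 1 ⌊3 * X⌋₊).filter (fun m => m % Q = b % Q ∧ ∀ p ∈ T, m % p = c p),
        Phi (m / X) * ArithmeticFunction.vonMangoldt m ≤
        ∑ n ∈ (Icc 1 ⌊3 * X⌋₊).filter (fun n => ¬ n.Coprime p),
          Phi (n / X) * ArithmeticFunction.vonMangoldt n := by
      apply sum_le_sum_of_subset_of_nonneg
      · intro m hm
        rw [mem_filter] at hm ⊢
        refine ⟨hm.1, ?_⟩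
        intro hco
        have h3 := hm.2.2 p hp
        rw [hcp] at h3
        have h4 : p ∣ m := Nat.dvd_of_mod_eq_zero h3
        have h5 : p ∣ 1 := by
          rw [← hco]
          exact Nat.dvd_gcd h4 dvd_rfl
        exact hpp.one_lt.ne' (Nat.dvd_one.mp h5)
      · intro m _ _
        exact hnn m
    linarith
  · push Not at h0
    obtain ⟨b', hb', hm⟩ := crt Q T hT hQT b hb c fun p hp => ⟨hc p hp, h0 p hp⟩
    have h1 : (Icc 1 ⌊3 * X⌋₊).filter (fun m => m % Q = b % Q ∧ ∀ p ∈ T, m % p = c p) =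
        (Icc 1 ⌊3 * X⌋₊).filter (fun m => m ≡ b' [MOD Q * ∏ p ∈ T, p]) := by
      ext m
      rw [mem_filter, mem_filter, hm m]
    rw [h1]
    have h2 := hmax b' hb'
    have h3 : ∏ p ∈ T, kP p (c p) = (∏ p ∈ T, ((p : ℝ) - 1))⁻¹ := by
      rw [← prod_inv_distrib]
      apply prod_congr rfl
      intro p hp
      rw [kP, if_neg (h0 p hp), one_div]
    have h4 : PsiT X / Q.totient * ∏ p ∈ T, kP p (c p) =
        (1 / ((Q * ∏ p ∈ T, p).totient : ℝ)) * PsiT X := by
      rw [h3, totient_prod Q T hT hQT, one_div, mul_inv]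
      ring
    rw [h4, PsiT_eq]
    have h5 : |EPhi X (Q * ∏ p ∈ T, p) b'| =
        |∑ m ∈ (Icc 1 ⌊3 * X⌋₊).filter (fun m => m ≡ b' [MOD Q * ∏ p ∈ T, p]),
          Phi (m / X) * ArithmeticFunction.vonMangoldt m -
        1 / ((Q * ∏ p ∈ T, p).totient : ℝ) * ∑ n ∈ Icc 1 ⌊3 * X⌋₊,
          Phi (n / X) * ArithmeticFunction.vonMangoldt n| := rfl
    rw [← h5]
    linarith

end Pool.Agent.H797R2.PE
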