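import Mathlib
import Pool.Agent.H797R2.PrimeEqA
import Pool.Agent.H378R2.Final

/-! Equidistribution of prime weights modulo a big modulus (Bombieri-Vinogradov). -/

set_option autoImplicit false

open Finset Filter Topology

namespace Pool.Agent.H797R2.PE

open Pool.Agent.H410R2.AC Pool.Agent.H410R2.EN Pool.Agent.H378R2

/-- the sets of primes in `ET` -/
noncomputable def FT (P : Finset ℕ) (D0 : ℕ) : Finset (Finset ℕ) :=
  P.powerset.filter (fun T : Finset ℕ => ∏ p ∈ T, p ≤ D0)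

theorem FT_inj (P : Finset ℕ) (hP : ∀ p ∈ P, p.Prime) (D0 : ℕ) :
    Set.InjOn (fun T : Finset ℕ => ∏ p ∈ T, p) (FT P D0 : Set (Finset ℕ)) := by
  intro T hT T' hT' h
  have hT1 : T ⊆ P := by
    have := (mem_filter.mp (mem_coe.mp hT)).1
    exact mem_powerset.mp this
  have hT2 : T' ⊆ P := by
    have := (mem_filter.mp (mem_coe.mp hT')).1
    exact mem_powerset.mp this
  have h1 := Nat.primeFactors_prod (s := T) fun p hp => hP p (hT1 hp)
  have h2 := Nat.primeFactors_prod (s := T') fun p hp => hP p (hT2 hp)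
  change ∏ p ∈ T, p = ∏ p ∈ T', p at h
  rw [← h1, ← h2, h]

theorem FT_sum_le (P : Finset ℕ) (hP : ∀ p ∈ P, p.Prime) (D0 : ℕ) (g : ℕ → ℝ) (hg : ∀ q, 0 ≤ g q)
    (G : Finset ℕ) (hG : ∀ T ∈ FT P D0, ∏ p ∈ T, p ∈ G) :
    ∑ T ∈ FT P D0, g (∏ p ∈ T, p) ≤ ∑ q ∈ G, g q := by
  rw [← sum_image (f := g) (FT_inj P hP D0)]
  apply sum_le_sum_of_subset_of_nonneg
  · intro q hq
    obtain ⟨T, hT, rfl⟩ := mem_image.mp hq
    exact hG T hT
  · intro q _ _
    exact hg q

theorem prod_pos' (T : Finset ℕ) (hT : ∀ p ∈ T, p.Prime) : 1 ≤ ∏ p ∈ T, p :=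
  Nat.one_le_iff_ne_zero.mpr (prod_ne_zero_iff.mpr fun p hp => (hT p hp).ne_zero)

theorem FT_pow_le (P : Finset ℕ) (hP : ∀ p ∈ P, p.Prime) (D0 K : ℕ) (hK : ∀ p ∈ P, K ≤ p) :
    ∑ T ∈ FT P D0, (K : ℝ) ^ T.card ≤ (D0 : ℝ) * D0 := by
  have h1 : ∀ T ∈ FT P D0, (K : ℝ) ^ T.card ≤ ((∏ p ∈ T, p : ℕ) : ℝ) := by
    intro T hT
    have hT1 : T ⊆ P := mem_powerset.mp (mem_filter.mp hT).1
    rw [← prod_const]
    push_cast
    apply Finset.prod_le_prod
    · intro p _; positivity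
    · intro p hp
      exact_mod_cast hK p (hT1 hp)
  calc ∑ T ∈ FT P D0, (K : ℝ) ^ T.card ≤ ∑ T ∈ FT P D0, ((∏ p ∈ T, p : ℕ) : ℝ) := sum_le_sum h1
    _ ≤ ∑ q ∈ Icc 1 D0, (q : ℝ) := by
        apply FT_sum_le P hP D0 (fun q => (q : ℝ)) (fun q => by positivity)
        intro T hT
        have hT1 : T ⊆ P := mem_powerset.mp (mem_filter.mp hT).1
        rw [mem_Icc]
        exact ⟨prod_pos' T fun p hp => hP p (hT1 hp), (mem_filter.mp hT).2⟩
    _ ≤ ∑ q ∈ Icc 1 D0, (D0 : ℝ) := by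
        apply sum_le_sum
        intro q hq
        exact_mod_cast (mem_Icc.mp hq).2
    _ = (D0 : ℝ) * D0 := by
        rw [sum_const, Nat.card_Icc, nsmul_eq_mul]
        simp

/-- the final inequality -/
theorem final_ineq (X L φ Ψ D : ℝ) (K : ℕ) (hX : 3 ≤ X) (hL : L = Real.log X) (hL40 : 40 ≤ L)
    (hφ : 0 < φ) (hφW : φ ≤ X ^ (1 / 500 : ℝ)) (hΨ : 1 / 20 * X ≤ Ψ) (hD0 : 0 ≤ D)
    (hD : D ≤ X ^ (1 / 100 : ℝ)) (hlog : 80 * L ^ (K + 1) ≤ X ^ (1 / 2 : ℝ)) :
    X / (φ * L ^ (K + 1)) + D * D * Real.log (3 * X) ≤ Ψ / φ / L ^ K := by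
  have hX0 : 0 < X := by linarith
  have hX1 : 1 ≤ X := by linarith
  have hL0 : 0 < L := by linarith
  have hLK : 0 < L ^ K := by positivity
  have h3X : Real.log (3 * X) ≤ 2 * L := by
    rw [Real.log_mul (by norm_num) (by linarith), hL]
    have := Real.log_le_log (by norm_num : (0 : ℝ) < 3) hX
    linarith
  have h1 : X / (φ * L ^ (K + 1)) ≤ (1 / 2) * (1 / 20 * X / φ / L ^ K) := by
    have e : X / (φ * L ^ (K + 1)) = (1 / L) * (X / φ / L ^ K) := by
      rw [pow_succ]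
      field_simp
    have e2 : (1 / 2) * (1 / 20 * X / φ / L ^ K) = (1 / 40) * (X / φ / L ^ K) := by ring
    rw [e, e2]
    apply mul_le_mul_of_nonneg_right _ (by positivity)
    exact one_div_le_one_div_of_le (by norm_num) hL40
  have h2 : D * D * Real.log (3 * X) ≤ (1 / 2) * (1 / 20 * X / φ / L ^ K) := by
    have e2 : (1 / 2) * (1 / 20 * X / φ / L ^ K) = (X / 40) / (φ * L ^ K) := by
      field_simp
      norm_num
    rw [e2, le_div_iff₀ (by positivity)]
    have hDD : D * D ≤ X ^ (1 / 50 : ℝ) := by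
      calc D * D ≤ X ^ (1 / 100 : ℝ) * X ^ (1 / 100 : ℝ) :=
            mul_le_mul hD hD hD0 (by positivity)
        _ = X ^ (1 / 50 : ℝ) := by
            rw [← Real.rpow_add hX0]
            norm_num
    have h5 : D * D * Real.log (3 * X) * (φ * L ^ K) ≤
        X ^ (1 / 50 : ℝ) * (2 * L) * (X ^ (1 / 500 : ℝ) * L ^ K) := by
      have hl3 : 0 ≤ Real.log (3 * X) := Real.log_nonneg (by linarith)
      apply mul_le_mul
      · exact mul_le_mul hDD h3X hl3 (by positivity)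
      · exact mul_le_mul_of_nonneg_right hφW hLK.le
      · positivity
      · positivity
    have h6 : X ^ (1 / 50 : ℝ) * (2 * L) * (X ^ (1 / 500 : ℝ) * L ^ K) =
        (1 / 40) * (X ^ (1 / 50 : ℝ) * X ^ (1 / 500 : ℝ)) * (80 * L ^ (K + 1)) := by
      rw [pow_succ]
      ring
    have h7 : X ^ (1 / 50 : ℝ) * X ^ (1 / 500 : ℝ) * X ^ (1 / 2 : ℝ) ≤ X := by
      rw [← Real.rpow_add hX0, ← Real.rpow_add hX0]
      conv_rhs => rw [← Real.rpow_one X]
      exact Real.rpow_le_rpow_of_exponent_le hX1 (by norm_num)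
    calc D * D * Real.log (3 * X) * (φ * L ^ K) ≤
        X ^ (1 / 50 : ℝ) * (2 * L) * (X ^ (1 / 500 : ℝ) * L ^ K) := h5
      _ = (1 / 40) * (X ^ (1 / 50 : ℝ) * X ^ (1 / 500 : ℝ)) * (80 * L ^ (K + 1)) := h6
      _ ≤ (1 / 40) * (X ^ (1 / 50 : ℝ) * X ^ (1 / 500 : ℝ)) * X ^ (1 / 2 : ℝ) :=
          mul_le_mul_of_nonneg_left hlog (by positivity)
      _ = (1 / 40) * (X ^ (1 / 50 : ℝ) * X ^ (1 / 500 : ℝ) * X ^ (1 / 2 : ℝ)) := by ring
      _ ≤ (1 / 40) * X := mul_le_mul_of_nonneg_left h7 (by norm_num)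
      _ = X / 40 := by ring
  have h3 : 1 / 20 * X / φ / L ^ K ≤ Ψ / φ / L ^ K := by
    apply div_le_div_of_nonneg_right _ hLK.le
    exact div_le_div_of_nonneg_right hΨ hφ.le
  linarith

theorem primeEq : PrimeEq := by
  obtain ⟨X1, hX1⟩ := PsiT_lower
  refine ⟨1 / 20, by norm_num, fun K => ?_⟩
  obtain ⟨X2, hX2⟩ := bv_of smallConductor_holds (K + 1) 2
  have ev := (eventually_ge_atTop X1).and ((eventually_ge_atTop X2).and
    ((eventually_ge_atTop (3 : ℝ)).and ((Real.tendsto_log_atTop.eventually_ge_atTop (40 : ℝ)).and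
    ((Real.tendsto_log_atTop.eventually_ge_atTop (1000 * (K : ℝ))).and
    (Pool.Agent.H398R2.BV.ev_log 80 (K + 1) (1 / 2) (by norm_num))))))
  obtain ⟨X0, hX0⟩ := eventually_atTop.mp ev
  refine ⟨X0, fun X hX => ?_⟩
  obtain ⟨h1, h2, h3, h40, hK, hlog⟩ := hX0 X hX
  have hΨ := hX1 X h1
  refine ⟨hΨ, ?_⟩
  obtain ⟨ps, S, hps, hS, hbv⟩ := hX2 X h2
  refine ⟨ps, S, hps, hS, ?_⟩
  set W := WW X S ps with hW
  set D0 := ⌊X ^ (1 / 100 : ℝ)⌋₊ with hD0
  set P := (PP (yy X) D0).erase ps with hP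
  have hX0' : 0 < X := by linarith
  have hWpos : 1 ≤ W := LSBV.WW_pos X S ps
  have hPmem : ∀ p ∈ P, p.Prime ∧ yy X < p ∧ p ≠ ps := by
    intro p hp
    rw [hP, mem_erase, PP, mem_filter] at hp
    exact ⟨hp.2.2.1, hp.2.2.2, hp.1⟩
  have hPprime : ∀ p ∈ P, p.Prime := fun p hp => (hPmem p hp).1
  have hPW : ∀ p ∈ P, p.Coprime W := by
    intro p hp
    rw [hW, Pool.Agent.H378R2.WW]
    apply Nat.Coprime.prod_right
    intro q hq
    have hqp := LSBV.WW_primes X S ps q hq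
    rw [PW, mem_filter, mem_Icc] at hq
    refine (Nat.coprime_primes (hPmem p hp).1 hqp).mpr ?_
    have := (hPmem p hp).2.1
    omega
  have hyy : K ≤ yy X := by
    unfold yy
    apply Nat.le_floor
    rw [le_div_iff₀ (by norm_num)]
    linarith
  have hPK : ∀ p ∈ P, K ≤ p := fun p hp => hyy.trans (hPmem p hp).2.1.le
  have hex : ∀ q : ℕ, ∃ b0 : ℕ, 1 ≤ q → (b0.Coprime (W * q) ∧
      ∀ b : ℕ, b.Coprime (W * q) → |EPhi X (W * q) b| ≤ |EPhi X (W * q) b0|) := by
    intro q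
    by_cases hq : 1 ≤ q
    · obtain ⟨b0, hb0⟩ := exists_bmax X (W * q) (Nat.mul_pos hWpos hq)
      exact ⟨b0, fun _ => hb0⟩
    · exact ⟨0, fun h => absurd h hq⟩
  choose bq hbq using hex
  have hbv' := hbv bq fun q hq => (hbq q hq).1
  refine ⟨fun T => |EPhi X (W * ∏ p ∈ T, p) (bq (∏ p ∈ T, p))| + Real.log (3 * X), ?_, ?_⟩
  · intro b hb T hT hTD c hc
    have hTp : ∀ p ∈ T, p.Prime := fun p hp => hPprime p (hT hp)
    have hpos := prod_pos' T hTp
    exact equid_one X (by linarith) W b hWpos hb T hTp (fun p hp => hPW p (hT hp)) c hc _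
      (abs_nonneg _) (hbq _ hpos).2
  · have hT1 : ∀ T ∈ FT P D0, T ⊆ P := fun T hT => mem_powerset.mp (mem_filter.mp hT).1
    have hET : ET K P D0 (fun T => |EPhi X (W * ∏ p ∈ T, p) (bq (∏ p ∈ T, p))| +
        Real.log (3 * X)) =
        ∑ T ∈ FT P D0, (K : ℝ) ^ T.card * |EPhi X (W * ∏ p ∈ T, p) (bq (∏ p ∈ T, p))| +
        (∑ T ∈ FT P D0, (K : ℝ) ^ T.card) * Real.log (3 * X) := by
      unfold ET FT
      rw [sum_mul, ← sum_add_distrib]
      apply sum_congr rfl
      intro T _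
      ring
    rw [hET]
    have hA : ∑ T ∈ FT P D0, (K : ℝ) ^ T.card * |EPhi X (W * ∏ p ∈ T, p) (bq (∏ p ∈ T, p))| ≤
        X / ((W.totient : ℝ) * Real.log X ^ (K + 1)) := by
      calc ∑ T ∈ FT P D0, (K : ℝ) ^ T.card * |EPhi X (W * ∏ p ∈ T, p) (bq (∏ p ∈ T, p))|
          ≤ ∑ T ∈ FT P D0, (((∏ p ∈ T, p).divisors.card : ℝ) ^ (K + 1) *
            |EPhi X (W * ∏ p ∈ T, p) (bq (∏ p ∈ T, p))|) := by
            apply sum_le_sum
            intro T hT
            apply mul_le_mul_of_nonneg_right _ (abs_nonneg _)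
            rw [card_divisors_prod T fun p hp => hPprime p (hT1 T hT hp)]
            push_cast
            rw [← pow_mul, mul_comm, pow_mul]
            apply pow_le_pow_left₀ (by positivity)
            have : K < 2 ^ K := Nat.lt_two_pow_self
            have h5 : K ≤ 2 ^ (K + 1) := by
              rw [pow_succ]; omega
            exact_mod_cast h5
        _ ≤ ∑ q ∈ (Icc 1 ⌊X ^ (1 / 100 : ℝ)⌋₊).filter
              (fun q => Squarefree q ∧ q.Coprime (W * ps)),
            ((q.divisors.card : ℝ) ^ (K + 1) * |EPhi X (W * q) (bq q)|) := by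
            apply FT_sum_le P hPprime D0
              (fun q => (q.divisors.card : ℝ) ^ (K + 1) * |EPhi X (W * q) (bq q)|)
              (fun q => by positivity)
            intro T hT
            have hTp : ∀ p ∈ T, p.Prime := fun p hp => hPprime p (hT1 T hT hp)
            rw [mem_filter, mem_Icc]
            refine ⟨⟨prod_pos' T hTp, (mem_filter.mp hT).2⟩, ?_, ?_⟩
            · apply Finset.squarefree_prod_of_pairwise_isCoprime
              · intro p hp q hq hpq
                exact Nat.coprime_iff_isRelPrime.mp ((Nat.coprime_primes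
                  (hTp p (by simpa using hp)) (hTp q (by simpa using hq))).mpr hpq)
              · intro p hp
                exact (hTp p hp).squarefree
            · apply Nat.Coprime.prod_left
              intro p hp
              apply Nat.Coprime.mul_right (hPW p (hT1 T hT hp))
              rcases hps with h | h
              · rw [h]; exact Nat.coprime_one_right p
              · exact (Nat.coprime_primes (hTp p hp) h.1).mpr (hPmem p (hT1 T hT hp)).2.2
        _ ≤ _ := hbv'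
    have hB : (∑ T ∈ FT P D0, (K : ℝ) ^ T.card) * Real.log (3 * X) ≤
        (D0 : ℝ) * D0 * Real.log (3 * X) :=
      mul_le_mul_of_nonneg_right (FT_pow_le P hPprime D0 K hPK)
        (Real.log_nonneg (by linarith))
    have hφW : (W.totient : ℝ) ≤ X ^ (1 / 500 : ℝ) := by
      have a1 : W.totient ≤ W := Nat.totient_le W
      have a2 : W ≤ primorial (yy X) :=
        Nat.le_of_dvd (primorial_pos _) (LSBV.WW_dvd_primorial X S ps)
      have a3 := LSBV.primorial_yy_le X (by linarith)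
      calc (W.totient : ℝ) ≤ (primorial (yy X) : ℝ) := by exact_mod_cast a1.trans a2
        _ ≤ _ := a3
    have hφ0 : 0 < (W.totient : ℝ) := by
      exact_mod_cast Nat.totient_pos.mpr hWpos
    have hfin := final_ineq X (Real.log X) W.totient (PsiT X) D0 K h3 rfl h40 hφ0 hφW hΨ
      (by positivity) (Nat.floor_le (by positivity)) hlog
    linarith

end Pool.Agent.H797R2.PE
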