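import Pool.Agent.H923R2.FP.Stubs

/-! Adjointness of creation and annihilation. -/

set_option autoImplicit false

open scoped ComplexConjugate

namespace Pool.Agent.H923R2.FP.T_N1

open Pool.Agent.H923R2.FP

theorem ssum_stw {Q R : Type} [Star Q] [Star R] {M : Type} [AddCommMonoid M]
    (g : List (Lt Q R) → List (Lt Q R) → M) (l v : List (Lt Q R)) :
    ssum g l (stw v) = ssum (fun a b => g (l ++ stw b) (stw a)) [] v := by
  induction v generalizing g with
  | nil => rfl
  | cons z v ih =>
    have h1 : stw (z :: v) = stw v ++ [stl z] := by simp [stw]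
    rw [h1, ssum_append, ih, ssum_cons, ssum_nil, add_zero, stl_isS, ssum_cons, List.nil_append]
    have h2 := ssum_shift (fun a b => g (l ++ stw b) (stw a)) [z] [] v
    rw [List.append_nil] at h2
    rw [h2, add_comm]
    congr 1
    · apply ssum_congr
      intro a b
      simp [stw]

theorem t_N1 : S_N1 := by
  intro A Q R _ _ _ _ _ _ _ τ π ρ s hτ hS v w
  have hst := vl_stl π ρ (s := s) hS.ssa
  -- the first map
  let F1 : A →+ ℂ := AddMonoidHom.mk' (fun x => τ (star (ev (vl π ρ s) v) * x)) (by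
    intro x y
    simp only [mul_add, map_add])
  let F2 : A →+ ℂ := AddMonoidHom.mk' (fun x => τ (star x * ev (vl π ρ s) w)) (by
    intro x y
    simp only [star_add, add_mul, map_add])
  have e1 : τ (star (ev (vl π ρ s) v) * Ls τ (vl π ρ s) w) =
      ssum (fun a b => τ (ev (vl π ρ s) a) * τ (ev (vl π ρ s) (b ++ stw v))) [] w := by
    show F1 (ssum _ [] w) = _
    rw [ssum_map]
    apply ssum_congr
    intro a b
    show τ (star (ev (vl π ρ s) v) * (τ (ev (vl π ρ s) a) • ev (vl π ρ s) b)) = _
    rw [mul_smul_comm, map_smul, smul_eq_mul, ev_append, ← star_ev hst, hτ.comm]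
  have e2 : τ (star (Ls τ (vl π ρ s) v) * ev (vl π ρ s) w) =
      ssum (fun l r => τ (ev (vl π ρ s) l) * τ (ev (vl π ρ s) r)) w (stw v) := by
    show F2 (ssum _ [] v) = _
    rw [ssum_map, ssum_stw]
    apply ssum_congr
    intro a b
    show τ (star (τ (ev (vl π ρ s) a) • ev (vl π ρ s) b) * ev (vl π ρ s) w) = _
    rw [star_smul, smul_mul_assoc, map_smul, smul_eq_mul, ev_append, ← star_ev hst, ← star_ev hst,
      hτ.str, hτ.comm, mul_comm]
    rfl
  have e3 : τ (star (s * ev (vl π ρ s) v) * ev (vl π ρ s) w) =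
      ssum (fun l r => τ (ev (vl π ρ s) l) * τ (ev (vl π ρ s) r)) [] (w ++ stw v) := by
    rw [← hS.sd, star_mul, hS.ssa, ev_append, ← star_ev hst, mul_assoc, hτ.comm, mul_assoc]
  rw [star_sub, sub_mul, map_sub, e3, ssum_append, e2, List.nil_append, add_sub_cancel_right, e1]

end Pool.Agent.H923R2.FP.T_N1
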