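import Mathlib
import Pool.Agent.H295R2.Mol.Defs

/-!
# Weighted Hölder inequality (part T0b of the mollification project)
-/

set_option autoImplicit false
set_option maxHeartbeats 400000

open MeasureTheory Filter Topology Set
open scoped ENNReal

namespace Pool.Agent.H797R2.MolHold

/-- The decay weight `(1+|t|)^{-2}` lies in every `L^q`, `q ≥ 1`. -/
lemma memLp_decay (q : ℝ≥0∞) (hq1 : 1 ≤ q) :
    MemLp (fun t : ℝ => (((1 + |t|) ^ (-2 : ℝ) : ℝ) : ℂ)) q (volume : Measure ℝ) := by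
  have hcont : Continuous (fun t : ℝ => (((1 + |t|) ^ (-2 : ℝ) : ℝ) : ℂ)) := by
    refine Complex.continuous_ofReal.comp ?_
    refine Continuous.rpow_const (by fun_prop) ?_
    intro t
    left
    positivity
  have hb : ∀ t : ℝ, ‖(((1 + |t|) ^ (-2 : ℝ) : ℝ) : ℂ)‖ ≤ 1 := by
    intro t
    rw [Complex.norm_real, Real.norm_of_nonneg (by positivity)]
    exact Real.rpow_le_one_of_one_le_of_nonpos (by linarith [abs_nonneg t]) (by norm_num)
  have hint : Integrable (fun t : ℝ => (((1 + |t|) ^ (-2 : ℝ) : ℝ) : ℂ)) volume := by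
    have h := integrable_one_add_norm (E := ℝ) (μ := volume) (r := 2) (by simp)
    have h2 : Integrable (fun t : ℝ => (1 + |t|) ^ (-2 : ℝ)) volume := h
    exact h2.ofReal
  by_cases hqt : q = ⊤
  · subst hqt
    exact memLp_top_of_bound hcont.aestronglyMeasurable 1 (Filter.Eventually.of_forall hb)
  have hq0 : q ≠ 0 := (lt_of_lt_of_le one_pos hq1).ne'
  rw [← integrable_norm_rpow_iff hcont.aestronglyMeasurable hq0 hqt]
  have hq1' : 1 ≤ q.toReal := by
    have := (ENNReal.toReal_le_toReal ENNReal.one_ne_top hqt).2 hq1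
    simpa using this
  refine Integrable.mono' hint.norm ?_ (Filter.Eventually.of_forall ?_)
  · refine Continuous.aestronglyMeasurable ?_
    exact Continuous.rpow_const hcont.norm (fun t => Or.inr (by positivity))
  · intro t
    rw [Real.norm_of_nonneg (by positivity)]
    calc ‖(((1 + |t|) ^ (-2 : ℝ) : ℝ) : ℂ)‖ ^ q.toReal
        ≤ ‖(((1 + |t|) ^ (-2 : ℝ) : ℝ) : ℂ)‖ ^ (1 : ℝ) :=
          Real.rpow_le_rpow_of_exponent_ge_of_imp (norm_nonneg _) (hb t) hq1' (by
            intro _ h; exact absurd h (by positivity))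
      _ = ‖(((1 + |t|) ^ (-2 : ℝ) : ℝ) : ℂ)‖ := Real.rpow_one _

theorem hold : Pool.Agent.H295R2.Mol.Hold := by
  intro p w hp
  set q : ℝ≥0∞ := (1 - p⁻¹)⁻¹ with hqdef
  have hpq : ENNReal.HolderConjugate p q := by
    have : Fact (1 ≤ p) := ⟨hp⟩
    exact ENNReal.HolderConjugate.inv_one_sub_inv' hp
  have hq1 : 1 ≤ q := ENNReal.HolderConjugate.one_le q p
  have hdec := memLp_decay q hq1
  set D : ℝ≥0∞ := eLpNorm (fun t : ℝ => (((1 + |t|) ^ (-2 : ℝ) : ℝ) : ℂ)) q volume with hD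
  have hDtop : D ≠ ⊤ := hdec.eLpNorm_lt_top.ne
  refine ⟨1 + D.toReal, by positivity, ?_⟩
  intro g h M hg hh hM hb hfin
  obtain ⟨G, hG⟩ : ∃ G : ℝ → ℂ, G = fun t : ℝ => g t * (((1 + |t|) ^ (-w) : ℝ) : ℂ) := ⟨_, rfl⟩
  obtain ⟨H, hH⟩ : ∃ H : ℝ → ℂ, H = fun t : ℝ => h t * (((1 + |t|) ^ w : ℝ) : ℂ) := ⟨_, rfl⟩
  rw [← hG] at hfin ⊢
  have hpos : ∀ t : ℝ, 0 < 1 + |t| := fun t => by positivity
  have hcw : ∀ v : ℝ, Continuous (fun t : ℝ => (((1 + |t|) ^ v : ℝ) : ℂ)) := by
    intro v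
    refine Complex.continuous_ofReal.comp ?_
    refine Continuous.rpow_const (by fun_prop) ?_
    intro t
    left
    exact (hpos t).ne'
  have hGc : Continuous G := by rw [hG]; exact hg.mul (hcw _)
  have hHc : Continuous H := by rw [hH]; exact hh.mul (hcw _)
  have hGH : ∀ t, g t * h t = G t * H t := by
    intro t
    have : (((1 + |t|) ^ (-w) : ℝ) : ℂ) * (((1 + |t|) ^ w : ℝ) : ℂ) = 1 := by
      rw [← Complex.ofReal_mul, ← Real.rpow_add (hpos t)]
      simp
    simp only [hG, hH]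
    calc g t * h t = g t * h t * 1 := by ring
      _ = g t * h t * ((((1 + |t|) ^ (-w) : ℝ) : ℂ) * (((1 + |t|) ^ w : ℝ) : ℂ)) := by rw [this]
      _ = _ := by ring
  have hHb : ∀ t, ‖H t‖ ≤ M * ‖(((1 + |t|) ^ (-2 : ℝ) : ℝ) : ℂ)‖ := by
    intro t
    simp only [hH]
    rw [norm_mul, Complex.norm_real, Complex.norm_real, Real.norm_of_nonneg (by positivity),
      Real.norm_of_nonneg (by positivity)]
    calc ‖h t‖ * (1 + |t|) ^ w ≤ M * (1 + |t|) ^ (-w - 2) * (1 + |t|) ^ w :=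
          mul_le_mul_of_nonneg_right (hb t) (by positivity)
      _ = M * (1 + |t|) ^ (-2 : ℝ) := by
          rw [mul_assoc, ← Real.rpow_add (hpos t)]
          congr 2
          ring
  have hHn : eLpNorm H q volume ≤ ENNReal.ofReal M * D := by
    rw [hD]
    refine eLpNorm_le_mul_eLpNorm_of_ae_le_mul (Filter.Eventually.of_forall hHb) q
  have key : eLpNorm (fun t => G t * H t) 1 volume ≤ eLpNorm G p volume * eLpNorm H q volume := by
    have := eLpNorm_smul_le_mul_eLpNorm (μ := (volume : Measure ℝ)) (p := p) (q := q) (r := 1)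
      (f := H) (φ := G) hHc.aestronglyMeasurable hGc.aestronglyMeasurable
    exact this
  have h1 : ‖∫ t : ℝ, g t * h t‖ₑ ≤ eLpNorm G p volume * (ENNReal.ofReal M * D) := by
    calc ‖∫ t : ℝ, g t * h t‖ₑ ≤ ∫⁻ t, ‖g t * h t‖ₑ := enorm_integral_le_lintegral_enorm _
      _ = eLpNorm (fun t => G t * H t) 1 volume := by
          rw [eLpNorm_one_eq_lintegral_enorm]
          refine lintegral_congr (fun t => ?_)
          rw [hGH t]
      _ ≤ eLpNorm G p volume * eLpNorm H q volume := key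
      _ ≤ _ := by gcongr
  have h2 : eLpNorm G p volume * (ENNReal.ofReal M * D) ≠ ⊤ :=
    ENNReal.mul_ne_top hfin (ENNReal.mul_ne_top ENNReal.ofReal_ne_top hDtop)
  have h3 := ENNReal.toReal_mono h2 h1
  rw [toReal_enorm, ENNReal.toReal_mul, ENNReal.toReal_mul, ENNReal.toReal_ofReal hM] at h3
  calc ‖∫ t : ℝ, g t * h t‖ ≤ (eLpNorm G p volume).toReal * (M * D.toReal) := h3
    _ = D.toReal * M * (eLpNorm G p volume).toReal := by ring
    _ ≤ (1 + D.toReal) * M * (eLpNorm G p volume).toReal := by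
        have : 0 ≤ M * (eLpNorm G p volume).toReal := by positivity
        nlinarith

end Pool.Agent.H797R2.MolHold
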