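import Pool.Agent.H175G.Stmts2

/-! `ND012Stmt`, `ND0123Stmt`, `ND5Stmt`. -/

set_option linter.unusedVariables false

namespace Pool.Agent.H797R2.ND17b

open Finset Classical
open Pool.Agent.H175G
open Pool.Agent.H175R2 (DT nt on cpt Cn P4Free)

lemma mf {α : Type} {p : α → Prop} {inst : DecidablePred p} {s : Finset α} {a : α}
    (h : a ∈ @Finset.filter α p inst s) : a ∈ s ∧ p a := by
  rwa [Finset.mem_filter] at h

section Facts

variable {V : Type} {G : SimpleGraph V} {c0 c1 c2 c3 c4 : V}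

/-- each `D₀` is a cluster -/
lemma f1 (hg : NoGem G) (hp : NoP23 G) (hC : C5c G c0 c1 c2 c3 c4) {x y z : V}
    (hx : TD G c0 c1 c2 c3 c4 x) (hy : TD G c0 c1 c2 c3 c4 y) (hz : TD G c0 c1 c2 c3 c4 z)
    (h1 : G.Adj x y) (h2 : G.Adj y z) (h3 : x ≠ z) : G.Adj x z := by
  by_contra h
  gp

lemma f2 (hg : NoGem G) (hp : NoP23 G) (hC : C5c G c0 c1 c2 c3 c4) {x y : V}
    (hx : TN G c0 c1 c2 c3 c4 x) (hy : TN G c0 c1 c2 c3 c4 y) : ¬ G.Adj x y := by
  intro h
  gp

lemma f3 (hg : NoGem G) (hp : NoP23 G) (hC : C5c G c0 c1 c2 c3 c4) {x y d : V}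
    (hx : TN G c0 c1 c2 c3 c4 x) (hy : TN G c0 c1 c2 c3 c4 y) (hd : TD G c0 c1 c2 c3 c4 d)
    (h1 : G.Adj x d) (h2 : G.Adj y d) : x = y := by
  by_contra h
  have h0 := f2 hg hp hC hx hy
  gp

lemma f4 (hg : NoGem G) (hp : NoP23 G) (hC : C5c G c0 c1 c2 c3 c4) {x d d' : V}
    (hx : TN G c0 c1 c2 c3 c4 x) (hd : TD G c0 c1 c2 c3 c4 d) (hd' : TD G c0 c1 c2 c3 c4 d')
    (h1 : G.Adj x d) (h2 : G.Adj d d') : G.Adj x d' := by
  by_contra h
  gp

lemma f5 (hg : NoGem G) (hp : NoP23 G) (hC : C5c G c0 c1 c2 c3 c4) {x d d' : V}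
    (hx : TN G c0 c1 c2 c3 c4 x) (hd : TD G c0 c1 c2 c3 c4 d) (hd' : TD G c0 c1 c2 c3 c4 d')
    (h1 : G.Adj x d) (h2 : G.Adj x d') (h3 : d ≠ d') : G.Adj d d' := by
  by_contra h
  gp

lemma f6 (hg : NoGem G) (hp : NoP23 G) (hC : C5c G c0 c1 c2 c3 c4) {n d e : V}
    (hx : TN G c0 c1 c2 c3 c4 n) (hd : TD G c0 c1 c2 c3 c4 d) (he : TD G c2 c3 c4 c0 c1 e)
    (h1 : G.Adj n d) (h2 : ¬ G.Adj d e) : G.Adj n e := by
  by_contra h
  gp

lemma f6' (hg : NoGem G) (hp : NoP23 G) (hC : C5c G c0 c1 c2 c3 c4) {n d e : V}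
    (hx : TN G c0 c1 c2 c3 c4 n) (hd : TD G c0 c1 c2 c3 c4 d) (he : TD G c3 c4 c0 c1 c2 e)
    (h1 : G.Adj n d) (h2 : ¬ G.Adj d e) : G.Adj n e := by
  by_contra h
  gp

lemma f7 (hg : NoGem G) (hp : NoP23 G) (hC : C5c G c0 c1 c2 c3 c4) {d d' e : V}
    (hd : TD G c0 c1 c2 c3 c4 d) (hd' : TD G c0 c1 c2 c3 c4 d') (he : TD G c2 c3 c4 c0 c1 e)
    (h1 : G.Adj d d') : G.Adj d e := by
  by_contra h
  gp

lemma f7' (hg : NoGem G) (hp : NoP23 G) (hC : C5c G c0 c1 c2 c3 c4) {d d' e : V}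
    (hd : TD G c0 c1 c2 c3 c4 d) (hd' : TD G c0 c1 c2 c3 c4 d') (he : TD G c3 c4 c0 c1 c2 e)
    (h1 : G.Adj d d') : G.Adj d e := by
  by_contra h
  gp

lemma f8 (hg : NoGem G) (hp : NoP23 G) (hC : C5c G c0 c1 c2 c3 c4) {x y z : V}
    (hx : TD G c0 c1 c2 c3 c4 x) (hy : TD G c2 c3 c4 c0 c1 y) (hz : TD G c3 c4 c0 c1 c2 z)
    (h1 : G.Adj x y) (h2 : G.Adj x z) (h3 : G.Adj y z) : False := by
  gp

end Facts

section Indexed

variable {V : Type} {G : SimpleGraph V}

lemma e21 (i : Fin 5) : i + 2 + 1 = i + 3 := by revert i; decide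
lemma e22 (i : Fin 5) : i + 2 + 2 = i + 4 := by revert i; decide
lemma e23 (i : Fin 5) : i + 2 + 3 = i := by revert i; decide
lemma e24 (i : Fin 5) : i + 2 + 4 = i + 1 := by revert i; decide
lemma e31 (i : Fin 5) : i + 3 + 1 = i + 4 := by revert i; decide
lemma e32 (i : Fin 5) : i + 3 + 2 = i := by revert i; decide
lemma e33 (i : Fin 5) : i + 3 + 3 = i + 1 := by revert i; decide
lemma e34 (i : Fin 5) : i + 3 + 4 = i + 2 := by revert i; decide
lemma e41 (i : Fin 5) : i + 4 + 1 = i := by revert i; decide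
lemma exk (i k : Fin 5) : ∃ j, k = i + j := by revert i k; decide
lemma unq : ∀ i j : Fin 5, (∀ k : Fin 5, (k = i + 1 ∨ k = i + 4) ↔ (k = j + 1 ∨ k = j + 4)) → i = j := by
  decide
lemma e00 (i : Fin 5) : i + 0 = i := by revert i; decide

/-- indexed configuration -/
structure Cfg (G : SimpleGraph V) (c : Fin 5 → V) (N : Finset V) (D : Fin 5 → Finset V) : Prop where
  cyc : ∀ i, C5c G (c i) (c (i+1)) (c (i+2)) (c (i+3)) (c (i+4))
  tn : ∀ i, ∀ x ∈ N, TN G (c i) (c (i+1)) (c (i+2)) (c (i+3)) (c (i+4)) x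
  td : ∀ i, ∀ x ∈ D i, TD G (c i) (c (i+1)) (c (i+2)) (c (i+3)) (c (i+4)) x

variable {c : Fin 5 → V} {N : Finset V} {D : Fin 5 → Finset V}

lemma Cfg.td2 (h : Cfg G c N D) (i : Fin 5) {x : V} (hx : x ∈ D (i+2)) :
    TD G (c (i+2)) (c (i+3)) (c (i+4)) (c i) (c (i+1)) x := by
  have := h.td (i+2) x hx
  rwa [e21, e22, e23, e24] at this

lemma Cfg.td3 (h : Cfg G c N D) (i : Fin 5) {x : V} (hx : x ∈ D (i+3)) :
    TD G (c (i+3)) (c (i+4)) (c i) (c (i+1)) (c (i+2)) x := by
  have := h.td (i+3) x hx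
  rwa [e31, e32, e33, e34] at this

lemma Cfg.adjc (h : Cfg G c N D) {i : Fin 5} {x : V} (hx : x ∈ D i) (k : Fin 5) :
    G.Adj (c k) x ↔ k = i + 1 ∨ k = i + 4 := by
  obtain ⟨j, rfl⟩ := exk i k
  have h1 := h.td i x hx
  have h2 : (i + j = i + 1 ∨ i + j = i + 4) ↔ (j = 1 ∨ j = 4) := by simp
  rw [h2]
  fin_cases j
  · simp only [Fin.zero_eta, e00]
    exact ⟨fun h' => absurd h' h1.1, fun h' => absurd h' (by decide)⟩
  · exact ⟨fun _ => Or.inl rfl, fun _ => h1.2.1⟩
  · exact ⟨fun h' => absurd h' h1.2.2.1, fun h' => absurd h' (by decide)⟩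
  · exact ⟨fun h' => absurd h' h1.2.2.2.1, fun h' => absurd h' (by decide)⟩
  · exact ⟨fun _ => Or.inr rfl, fun _ => h1.2.2.2.2.1⟩

lemma Cfg.uniq (h : Cfg G c N D) {i j : Fin 5} {x : V} (hx : x ∈ D i) (hy : x ∈ D j) : i = j := by
  have h1 : ∀ k, (k = i + 1 ∨ k = i + 4) ↔ (k = j + 1 ∨ k = j + 4) := fun k =>
    (h.adjc hx k).symm.trans (h.adjc hy k)
  exact unq i j h1

lemma Cfg.nN (h : Cfg G c N D) {i : Fin 5} {x : V} (hx : x ∈ D i) : x ∉ N := by
  intro hN
  exact (h.tn i x hN).2.1 (h.td i x hx).2.1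

/-- a vertex of `N` has no neighbour in `D i` if `D (i+2)`, `D (i+3)` are complete to each other
and have at least two vertices each -/
lemma Cfg.antiN (hg : NoGem G) (hp : NoP23 G) (h : Cfg G c N D) (i : Fin 5)
    (h2 : 2 ≤ (D (i+2)).card) (h3 : 2 ≤ (D (i+3)).card) (hc : Comp G (D (i+2)) (D (i+3))) :
    Anti G N (D i) := by
  intro n hn x hx hnx
  have hC := h.cyc i
  have tn := h.tn i n hn
  have tx := h.td i x hx
  by_cases hy : ∃ y ∈ D (i+2), G.Adj x y
  · obtain ⟨y, hy, hxy⟩ := hy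
    have ty := h.td2 i hy
    have hz : ∀ z ∈ D (i+3), ¬ G.Adj x z := fun z hz hxz =>
      f8 hg hp hC tx ty (h.td3 i hz) hxy hxz (hc y hy z hz)
    obtain ⟨z, hz1, z', hz2, hne⟩ := Finset.one_lt_card.1 h3
    have tz := h.td3 i hz1
    have tz' := h.td3 i hz2
    have n1 := f6' hg hp hC tn tx tz hnx (hz z hz1)
    have n2 := f6' hg hp hC tn tx tz' hnx (hz z' hz2)
    have hC3 := h.cyc (i+3)
    rw [e31, e32, e33, e34] at hC3
    have tn3 := h.tn (i+3) n hn
    rw [e31, e32, e33, e34] at tn3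
    have h5 := f5 hg hp hC3 tn3 tz tz' n1 n2 hne
    exact hz z hz1 (f7 hg hp hC3 tz tz' tx h5).symm
  · push Not at hy
    obtain ⟨z, hz1, z', hz2, hne⟩ := Finset.one_lt_card.1 h2
    have tz := h.td2 i hz1
    have tz' := h.td2 i hz2
    have n1 := f6 hg hp hC tn tx tz hnx (hy z hz1)
    have n2 := f6 hg hp hC tn tx tz' hnx (hy z' hz2)
    have hC3 := h.cyc (i+2)
    rw [e21, e22, e23, e24] at hC3
    have tn3 := h.tn (i+2) n hn
    rw [e21, e22, e23, e24] at tn3
    have h5 := f5 hg hp hC3 tn3 tz tz' n1 n2 hne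
    exact hy z hz1 (f7' hg hp hC3 tz tz' tx h5).symm

/-- type of a vertex -/
noncomputable def ty (D : Fin 5 → Finset V) (x : V) : Option (Fin 5) :=
  if h : ∃ i, x ∈ D i then some h.choose else none

lemma Cfg.ty_some (h : Cfg G c N D) {i : Fin 5} {x : V} (hx : x ∈ D i) : ty D x = some i := by
  have h1 : ∃ i, x ∈ D i := ⟨i, hx⟩
  unfold ty
  rw [dif_pos h1]
  exact congrArg some (h.uniq h1.choose_spec hx)

lemma Cfg.ty_none (h : Cfg G c N D) {x : V} (hx : x ∈ N) : ty D x = none := by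
  unfold ty
  rw [dif_neg]
  rintro ⟨i, hi⟩
  exact h.nN hi hx

/-- part of a vertex -/
noncomputable def pt (G : SimpleGraph V) (D : Fin 5 → Finset V) (x : V) : Option (Fin 5) :=
  match ty D x with
  | some i => if ∃ y ∈ D (i+3), G.Adj x y then some (i+3) else some i
  | none => none

lemma Cfg.pt_none (h : Cfg G c N D) {x : V} (hx : x ∈ N) : pt G D x = none := by
  unfold pt; rw [h.ty_none hx]

lemma Cfg.pt_pos (h : Cfg G c N D) {i : Fin 5} {x : V} (hx : x ∈ D i)
    (hy : ∃ y ∈ D (i+3), G.Adj x y) : pt G D x = some (i+3) := by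
  unfold pt; rw [h.ty_some hx]; simp only; rw [if_pos hy]

lemma Cfg.pt_neg (h : Cfg G c N D) {i : Fin 5} {x : V} (hx : x ∈ D i)
    (hy : ¬ ∃ y ∈ D (i+3), G.Adj x y) : pt G D x = some i := by
  unfold pt; rw [h.ty_some hx]; simp only; rw [if_neg hy]

/-- adjacency from types, for vertices in different parts -/
def adjF : Option (Fin 5) → Option (Fin 5) → Prop
  | some i, some j => j = i + 1 ∨ i = j + 1
  | _, _ => False

lemma adjF_iff (i k : Fin 5) : adjF (some i) (some (i+k)) ↔ (k = 1 ∨ k = 4) := by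
  unfold adjF
  revert i k; decide

lemma adjF_none_left (b : Option (Fin 5)) : ¬ adjF none b := by
  cases b <;> simp [adjF]

lemma adjF_none_right (b : Option (Fin 5)) : ¬ adjF b none := by
  cases b <;> simp [adjF]

/-- all vertices -/
noncomputable def un (N : Finset V) (D : Fin 5 → Finset V) : Finset V := N ∪ univ.biUnion D

lemma mem_un {x : V} : x ∈ un N D ↔ x ∈ N ∨ ∃ i, x ∈ D i := by simp [un]

lemma Cfg.cross2 (hg : NoGem G) (hp : NoP23 G) (h : Cfg G c N D)
    (hc : ∀ i, Comp G (D i) (D (i+1))) (i : Fin 5) {x y : V} (hx : x ∈ D i) (hy : y ∈ D (i+2))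
    (hxy : G.Adj x y) : pt G D x = pt G D y := by
  have hc1 : Comp G (D (i+2)) (D (i+3)) := by
    have := hc (i+2); rwa [e21] at this
  rw [h.pt_neg hx, h.pt_pos hy (by rw [e23]; exact ⟨x, hx, hxy.symm⟩), e23]
  rintro ⟨z, hz, hxz⟩
  exact f8 hg hp (h.cyc i) (h.td i x hx) (h.td2 i hy) (h.td3 i hz) hxy hxz (hc1 y hy z hz)

lemma Cfg.cross0 (hg : NoGem G) (hp : NoP23 G) (h : Cfg G c N D) (i : Fin 5) {x y : V}
    (hx : x ∈ D i) (hy : y ∈ D i) (hxy : G.Adj x y) : pt G D x = pt G D y := by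
  by_cases hne : (D (i+3)).Nonempty
  · obtain ⟨z, hz⟩ := hne
    have t3 := h.td3 i hz
    rw [h.pt_pos hx ⟨z, hz, f7' hg hp (h.cyc i) (h.td i x hx) (h.td i y hy) t3 hxy⟩,
      h.pt_pos hy ⟨z, hz, f7' hg hp (h.cyc i) (h.td i y hy) (h.td i x hx) t3 hxy.symm⟩]
  · rw [not_nonempty_iff_eq_empty] at hne
    rw [h.pt_neg hx (by rw [hne]; simp), h.pt_neg hy (by rw [hne]; simp)]

/-- all consecutive pairs complete and `N` isolated -/
lemma gen (hA : AttachStmt) : ∃ K : ℕ, ∀ (V : Type) (G : SimpleGraph V), NoGem G → NoP23 G →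
    ∀ (c : Fin 5 → V) (N : Finset V) (D : Fin 5 → Finset V), Cfg G c N D →
    (∀ i, Comp G (D i) (D (i+1))) → (∀ i, Anti G N (D i)) → BD G K (un N D) := by
  obtain ⟨B, hB⟩ := hA
  refine ⟨B 0 1 (Fintype.card (Option (Fin 5))), ?_⟩
  intro V G hg hp c N D h hc hN
  have key := hB V G (Option (Fin 5)) (Option (Fin 5)) 0 1 ∅ (un N D) (ty D) adjF (pt G D)
    BD.empty (by simp) ?_ ?_
  · rwa [empty_union] at key
  · intro x hx
    rw [empty_union] at hx ⊢
    rcases hb : pt G D x with _ | k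
    · -- block `N`
      apply BD.ind
      intro y hy z hz
      have aux : ∀ y, y ∈ un N D → pt G D y = none → y ∈ N := by
        intro y hy h2
        rw [mem_un] at hy
        rcases hy with h1 | ⟨i, hi⟩
        · exact h1
        · exfalso
          by_cases h3 : ∃ z ∈ D (i+3), G.Adj y z
          · rw [h.pt_pos hi h3] at h2; cases h2
          · rw [h.pt_neg hi h3] at h2; cases h2
      have hy := mf hy
      have hz := mf hz
      exact f2 hg hp (h.cyc 0) (h.tn 0 y (aux y hy.1 hy.2)) (h.tn 0 z (aux z hz.1 hz.2))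
    · apply BD.cograph
      apply p4free_of_nb hg (v := c (k+1))
      intro y hy
      have hy := mf hy
      rw [mem_un] at hy
      rcases hy with ⟨h1 | ⟨i, hi⟩, h2⟩
      · rw [h.pt_none h1] at h2; cases h2
      · rw [h.adjc hi]
        by_cases h3 : ∃ z ∈ D (i+3), G.Adj y z
        · rw [h.pt_pos hi h3] at h2
          simp only [Option.some.injEq] at h2
          subst h2
          right; rw [e31]
        · rw [h.pt_neg hi h3] at h2
          simp only [Option.some.injEq] at h2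
          subst h2
          left; rfl
  · intro x hx y hy hne
    rw [empty_union, mem_un] at hy
    rw [mem_un] at hx
    rcases hx with hx | ⟨i, hx⟩
    · rw [h.ty_none hx]
      refine ⟨fun hadj => ?_, fun h' => absurd h' (adjF_none_left _)⟩
      rcases hy with hy | ⟨j, hy⟩
      · exact absurd hadj (f2 hg hp (h.cyc 0) (h.tn 0 x hx) (h.tn 0 y hy))
      · exact absurd hadj (hN j x hx y hy)
    · rcases hy with hy | ⟨j, hy⟩
      · rw [h.ty_none hy]
        exact ⟨fun hadj => absurd hadj.symm (hN i y hy x hx), fun h' => absurd h' (adjF_none_right _)⟩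
      · rw [h.ty_some hx, h.ty_some hy]
        obtain ⟨k, rfl⟩ := exk i j
        have hF : adjF (some i) (some (i+k)) ↔ (k = 1 ∨ k = 4) := by
          exact adjF_iff i k
        rw [hF]
        fin_cases k
        · simp only [Fin.zero_eta, e00] at hy ⊢
          exact ⟨fun hadj => absurd (h.cross0 hg hp i hx hy hadj) hne, fun h' => absurd h' (by decide)⟩
        · exact ⟨fun _ => Or.inl rfl, fun _ => hc i x hx y hy⟩
        · exact ⟨fun hadj => absurd (h.cross2 hg hp hc i hx hy hadj) hne,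
            fun h' => absurd h' (by decide)⟩
        · refine ⟨fun hadj => absurd ?_ hne, fun h' => absurd h' (by decide)⟩
          exact (h.cross2 hg hp hc (i+3) hy (by rw [e32]; exact hx) hadj.symm).symm
        · refine ⟨fun _ => Or.inr rfl, fun _ => ?_⟩
          have := hc (i+4)
          rw [e41] at this
          exact (this y hy x hx).symm

lemma f5i (hg : NoGem G) (hp : NoP23 G) (h : Cfg G c N D) {i : Fin 5} {n d d' : V} (hn : n ∈ N)
    (hd : d ∈ D i) (hd' : d' ∈ D i) (h1 : G.Adj n d) (h2 : G.Adj n d') (h3 : d ≠ d') :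
    G.Adj d d' :=
  f5 hg hp (h.cyc i) (h.tn i n hn) (h.td i d hd) (h.td i d' hd') h1 h2 h3

/-- anchor of a vertex -/
noncomputable def anc (G : SimpleGraph V) (N : Finset V) (x : V) : V :=
  if h : ∃ n ∈ N, G.Adj n x then h.choose else x

lemma anc_pos {x : V} (h : ∃ n ∈ N, G.Adj n x) : anc G N x ∈ N ∧ G.Adj (anc G N x) x := by
  unfold anc; rw [dif_pos h]; exact h.choose_spec

lemma anc_neg {x : V} (h : ¬ ∃ n ∈ N, G.Adj n x) : anc G N x = x := by
  unfold anc; rw [dif_neg h]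

lemma Cfg.anc_eq (hg : NoGem G) (hp : NoP23 G) (h : Cfg G c N D) {i : Fin 5} {n x : V}
    (hn : n ∈ N) (hx : x ∈ D i) (h1 : G.Adj n x) : anc G N x = n := by
  have h2 := anc_pos (G := G) (N := N) ⟨n, hn, h1⟩
  exact f3 hg hp (h.cyc i) (h.tn i _ h2.1) (h.tn i _ hn) (h.td i x hx) h2.2 h1

lemma Cfg.indN (hg : NoGem G) (hp : NoP23 G) (h : Cfg G c N D) : Ind G N :=
  fun x hx y hy => f2 hg hp (h.cyc 0) (h.tn 0 x hx) (h.tn 0 y hy)

/-- label rule for attached vertices -/
def neF : Option (Fin 5) → Option (Fin 5) → Prop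
  | some i, some j => i ≠ j
  | _, _ => False

lemma neF_add (i k : Fin 5) (h : k ≠ 0) : neF (some i) (some (i + k)) := by
  unfold neF
  revert i k; decide

lemma neF_none_right (b : Option (Fin 5)) : ¬ neF b none := by
  cases b <;> simp [neF]

lemma att (hA : AttachStmt) : ∃ K : ℕ, ∀ (V : Type) (G : SimpleGraph V), NoGem G → NoP23 G →
    ∀ (c : Fin 5 → V) (N : Finset V) (D : Fin 5 → Finset V), Cfg G c N D →
    (∀ i, Comp G (D i) (D (i+1))) → Anti G N (D 0) → Anti G N (D 3) → Anti G N (D 4) →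
    BD G K (un N D) := by
  obtain ⟨K0, hK0⟩ := gen hA
  obtain ⟨B, hB⟩ := hA
  refine ⟨B K0 1 (Fintype.card (Option (Fin 5))), ?_⟩
  intro V G hg hp c N D h hc hN0 hN3 hN4
  set D' : Fin 5 → Finset V := fun i => (D i).filter (fun x => ¬ ∃ n ∈ N, G.Adj n x) with hD'
  have hsub : ∀ i, ∀ x ∈ D' i, x ∈ D i ∧ ¬ ∃ n ∈ N, G.Adj n x := by
    intro i x hx
    rw [hD'] at hx
    exact mf hx
  have hmem : ∀ i, ∀ x ∈ D i, (¬ ∃ n ∈ N, G.Adj n x) → x ∈ D' i := by
    intro i x hx hn
    rw [hD']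
    simp only [mem_filter]
    exact ⟨hx, hn⟩
  have h' : Cfg G c N D' := ⟨h.cyc, h.tn, fun i x hx => h.td i x (hsub i x hx).1⟩
  have hV0 : BD G K0 (un N D') := hK0 V G hg hp c N D' h'
    (fun i x hx y hy => hc i x (hsub i x hx).1 y (hsub (i+1) y hy).1)
    (fun i n hn x hx hnx => (hsub i x hx).2 ⟨n, hn, hnx⟩)
  set W : Finset V := (un N D).filter (fun x => ∃ n ∈ N, G.Adj n x) with hW
  have hWm : ∀ x ∈ W, (∃ n ∈ N, G.Adj n x) ∧ ∃ i, x ∈ D i := by
    intro x hx
    rw [hW] at hx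
    obtain ⟨h1, h2⟩ := mf hx
    refine ⟨h2, ?_⟩
    rw [mem_un] at h1
    rcases h1 with h1 | h1
    · obtain ⟨n, hn, hnx⟩ := h2
      exact absurd hnx (h.indN hg hp n hn x h1)
    · exact h1
  have hun : un N D = un N D' ∪ W := by
    ext x
    rw [mem_union, mem_un, mem_un, hW]
    simp only [mem_filter, mem_un]
    constructor
    · rintro (h1 | ⟨i, hi⟩)
      · exact Or.inl (Or.inl h1)
      · by_cases h2 : ∃ n ∈ N, G.Adj n x
        · exact Or.inr ⟨Or.inr ⟨i, hi⟩, h2⟩
        · exact Or.inl (Or.inr ⟨i, hmem i x hi h2⟩)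
    · rintro ((h1 | ⟨i, hi⟩) | ⟨h1, _⟩)
      · exact Or.inl h1
      · exact Or.inr ⟨i, (hsub i x hi).1⟩
      · exact h1
  have h12 : ∀ i, ∀ x ∈ D i, (∃ n ∈ N, G.Adj n x) → i = 1 ∨ i = 2 := by
    intro i x hx ⟨n, hn, hnx⟩
    fin_cases i
    · exact absurd hnx (hN0 n hn x hx)
    · exact Or.inl rfl
    · exact Or.inr rfl
    · exact absurd hnx (hN3 n hn x hx)
    · exact absurd hnx (hN4 n hn x hx)
  rw [hun]
  apply hB V G (Option (Fin 5)) V K0 1 (un N D') W (ty D) neF (anc G N) hV0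
  · -- injective on V0
    have aux : ∀ x ∈ un N D', anc G N x = x := by
      intro x hx
      apply anc_neg
      rintro ⟨n, hn, hnx⟩
      rw [mem_un] at hx
      rcases hx with hx | ⟨i, hi⟩
      · exact h.indN hg hp n hn x hx hnx
      · exact (hsub i x hi).2 ⟨n, hn, hnx⟩
    intro x hx y hy hxy
    rwa [aux x hx, aux y hy] at hxy
  · intro x _
    apply BD.clq
    intro y hy z hz hne
    have hy := mf hy
    have hz := mf hz
    have hyz : anc G N y = anc G N z := hy.2.trans hz.2.symm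
    have hym := hy.1
    have hzm := hz.1
    rw [← hun, mem_un] at hym hzm
    by_cases h1 : ∃ n ∈ N, G.Adj n y
    · have a1 := anc_pos h1
      by_cases h2 : ∃ n ∈ N, G.Adj n z
      · have a2 := anc_pos h2
        rw [← hyz] at a2
        rcases hym with hym | ⟨i, hi⟩
        · exact absurd a1.2 (h.indN hg hp _ a1.1 y hym)
        rcases hzm with hzm | ⟨j, hj⟩
        · exact absurd a2.2 (h.indN hg hp _ a1.1 z hzm)
        rcases h12 i y hi h1 with rfl | rfl
        · rcases h12 j z hj h2 with rfl | rfl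
          · exact f5i hg hp h a1.1 hi hj a1.2 a2.2 hne
          · exact hc 1 y hi z hj
        · rcases h12 j z hj h2 with rfl | rfl
          · exact (hc 1 z hj y hi).symm
          · exact f5i hg hp h a1.1 hi hj a1.2 a2.2 hne
      · rw [anc_neg h2] at hyz
        rw [hyz] at a1
        exact a1.2.symm
    · rw [anc_neg h1] at hyz
      by_cases h2 : ∃ n ∈ N, G.Adj n z
      · have a2 := anc_pos h2
        rw [← hyz] at a2
        exact a2.2
      · rw [anc_neg h2] at hyz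
        exact absurd hyz hne
  · intro x hx y hy hne
    obtain ⟨h1, i, hi⟩ := hWm x hx
    have a1 := anc_pos h1
    rw [← hun, mem_un] at hy
    rw [h.ty_some hi]
    rcases hy with hy | ⟨j, hj⟩
    · rw [h.ty_none hy]
      refine ⟨fun hadj => ?_, fun h' => absurd h' (neF_none_right _)⟩
      exfalso
      apply hne
      rw [h.anc_eq hg hp hy hi hadj.symm]
      symm
      apply anc_neg
      rintro ⟨n, hn, hny⟩
      exact h.indN hg hp n hn y hy hny
    · rw [h.ty_some hj]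
      have hn : ¬ G.Adj (anc G N x) y := fun h' => hne (h.anc_eq hg hp a1.1 hj h').symm
      obtain ⟨k, rfl⟩ := exk i j
      have hC := h.cyc i
      have tn := h.tn i _ a1.1
      have tx := h.td i x hi
      fin_cases k
      · simp only [Fin.zero_eta, e00] at hj ⊢
        refine ⟨fun hadj => ?_, fun h' => absurd rfl h'⟩
        exact absurd (f4 hg hp hC tn tx (h.td i y hj) a1.2 hadj) hn
      · refine ⟨fun _ => neF_add i _ (by decide), fun _ => hc i x hi y hj⟩
      · refine ⟨fun _ => neF_add i _ (by decide), fun _ => ?_⟩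
        by_contra hadj
        exact hn (f6 hg hp hC tn tx (h.td2 i hj) a1.2 hadj)
      · refine ⟨fun _ => neF_add i _ (by decide), fun _ => ?_⟩
        by_contra hadj
        exact hn (f6' hg hp hC tn tx (h.td3 i hj) a1.2 hadj)
      · refine ⟨fun _ => neF_add i _ (by decide), fun _ => ?_⟩
        have := hc (i+4)
        rw [e41] at this
        exact (this y hj x hi).symm

/-- five sets as a function -/
def fam (D0 D1 D2 D3 D4 : Finset V) : Fin 5 → Finset V := ![D0, D1, D2, D3, D4]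

lemma cfg_of {c0 c1 c2 c3 c4 : V} {N D0 D1 D2 D3 D4 : Finset V}
    (h : NDCfg G c0 c1 c2 c3 c4 N D0 D1 D2 D3 D4) :
    Cfg G ![c0, c1, c2, c3, c4] N (fam D0 D1 D2 D3 D4) := by
  obtain ⟨⟨h01, h12, h23, h34, h40, n02, n03, n13, n14, n24⟩, hN, h0, h1, h2, h3, h4⟩ := h
  have n02' := not_symm' n02
  have n03' := not_symm' n03
  have n13' := not_symm' n13
  have n14' := not_symm' n14
  have n24' := not_symm' n24
  refine ⟨?_, ?_, ?_⟩
  · intro i
    fin_cases i
    · exact ⟨h01, h12, h23, h34, h40, n02, n03, n13, n14, n24⟩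
    · exact ⟨h12, h23, h34, h40, h01, n13, n14, n24, n02', n03'⟩
    · exact ⟨h23, h34, h40, h01, h12, n24, n02', n03', n13', n14'⟩
    · exact ⟨h34, h40, h01, h12, h23, n03', n13', n14', n24', n02⟩
    · exact ⟨h40, h01, h12, h23, h34, n14', n24', n02, n03, n13⟩
  · intro i x hx
    obtain ⟨a0, a1, a2, a3, a4⟩ := hN x hx
    fin_cases i
    · exact ⟨a0, a1, a2, a3, a4⟩
    · exact ⟨a1, a2, a3, a4, a0⟩
    · exact ⟨a2, a3, a4, a0, a1⟩
    · exact ⟨a3, a4, a0, a1, a2⟩
    · exact ⟨a4, a0, a1, a2, a3⟩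
  · intro i x hx
    fin_cases i
    · exact h0 x hx
    · exact h1 x hx
    · exact h2 x hx
    · exact h3 x hx
    · exact h4 x hx

lemma un_fam {D0 D1 D2 D3 D4 : Finset V} :
    un N (fam D0 D1 D2 D3 D4) = N ∪ D0 ∪ D1 ∪ D2 ∪ D3 ∪ D4 := by
  ext x
  rw [mem_un]
  simp only [mem_union, fam]
  constructor
  · rintro (h | ⟨i, hi⟩)
    · tauto
    · fin_cases i
      · have : x ∈ D0 := hi
        tauto
      · have : x ∈ D1 := hi
        tauto
      · have : x ∈ D2 := hi
        tauto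
      · have : x ∈ D3 := hi
        tauto
      · have : x ∈ D4 := hi
        tauto
  · rintro (((((h | h) | h) | h) | h) | h)
    · exact Or.inl h
    · exact Or.inr ⟨0, h⟩
    · exact Or.inr ⟨1, h⟩
    · exact Or.inr ⟨2, h⟩
    · exact Or.inr ⟨3, h⟩
    · exact Or.inr ⟨4, h⟩

end Indexed

theorem nd0123_stmt (hA : AttachStmt) : ND0123Stmt := by
  obtain ⟨K, hK⟩ := att hA
  refine ⟨K, ?_⟩
  intro V G hg hp c0 c1 c2 c3 c4 N D0 D1 D2 D3 hcfg k0 k1 k2 k3 h01 h12 h23
  have h := cfg_of hcfg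
  have e := un_fam (N := N) (D0 := D0) (D1 := D1) (D2 := D2) (D3 := D3) (D4 := ∅)
  rw [union_empty] at e
  rw [← e]
  apply hK V G hg hp _ N _ h
  · intro i
    fin_cases i
    · exact h01
    · exact h12
    · exact h23
    · intro x _ y hy; exact absurd hy (notMem_empty y)
    · intro x hx; exact absurd hx (notMem_empty x)
  · exact h.antiN hg hp 0 (by change 2 ≤ D2.card; omega) (by change 2 ≤ D3.card; omega) h23
  · exact h.antiN hg hp 3 (by change 2 ≤ D0.card; omega) (by change 2 ≤ D1.card; omega) h01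
  · intro x _ y hy; exact absurd hy (notMem_empty y)

theorem nd5_stmt (hA : AttachStmt) : ND5Stmt := by
  obtain ⟨K, hK⟩ := gen hA
  refine ⟨K, ?_⟩
  intro V G hg hp c0 c1 c2 c3 c4 N D0 D1 D2 D3 D4 hcfg k0 k1 k2 k3 k4 h01 h12 h23 h34 h40
  have h := cfg_of hcfg
  rw [← un_fam]
  apply hK V G hg hp _ N _ h
  · intro i
    fin_cases i
    · exact h01
    · exact h12
    · exact h23
    · exact h34
    · exact h40
  · intro i
    fin_cases i
    · exact h.antiN hg hp 0 (by change 2 ≤ D2.card; omega) (by change 2 ≤ D3.card; omega) h23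
    · exact h.antiN hg hp 1 (by change 2 ≤ D3.card; omega) (by change 2 ≤ D4.card; omega) h34
    · exact h.antiN hg hp 2 (by change 2 ≤ D4.card; omega) (by change 2 ≤ D0.card; omega) h40
    · exact h.antiN hg hp 3 (by change 2 ≤ D0.card; omega) (by change 2 ≤ D1.card; omega) h01
    · exact h.antiN hg hp 4 (by change 2 ≤ D1.card; omega) (by change 2 ≤ D2.card; omega) h12

/-- block of a vertex, `ND012` -/
noncomputable def blk {V : Type} (G : SimpleGraph V) (N D1 : Finset V) (x : V) : Option V :=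
  if x ∈ D1 then (if ∃ n ∈ N, G.Adj n x then some (anc G N x) else none) else some x

theorem nd012_stmt (hA : AttachStmt) (hZ : ZStmt) : ND012Stmt := by
  obtain ⟨K0, hK0⟩ := hZ
  obtain ⟨B, hB⟩ := hA
  refine ⟨B K0 1 (Fintype.card Prop), ?_⟩
  intro V G hg hp c0 c1 c2 c3 c4 N D0 D1 D2 hcfg k0 k1 k2 h01 h12
  have h := cfg_of hcfg
  have hm : ∀ x ∈ D1, x ∈ (fam D0 D1 D2 ∅ ∅) 1 := fun x hx => hx
  have hn1 : ∀ x ∈ D1, x ∉ N := fun x hx => h.nN (hm x hx)
  have hd01 : ∀ x ∈ D0, x ∉ D1 := by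
    intro x hx hx'
    have := h.uniq (i := 0) (j := 1) (x := x) hx hx'
    exact absurd this (by decide)
  have hd21 : ∀ x ∈ D2, x ∉ D1 := by
    intro x hx hx'
    have := h.uniq (i := 2) (j := 1) (x := x) hx hx'
    exact absurd this (by decide)
  have hV0 : BD G K0 (D0 ∪ D2 ∪ N) := by
    apply hK0 V G hg hp c1
    obtain ⟨⟨g01, g12, g23, g34, g40, n02, n03, n13, n14, n24⟩, hN, h0, h1, h2, h3, h4⟩ := hcfg
    refine ⟨?_, ?_, h.indN hg hp, ?_⟩
    · intro m hm
      rw [mem_union] at hm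
      rcases hm with hm | hm
      · exact (h0 m hm).2.1
      · exact (h2 m hm).2.2.2.2.1
    · intro n hn; exact (hN n hn).2.1
    · intro hc; exact (hN c1 hc).1 g01
  have hb0 : ∀ x ∈ D0 ∪ D2 ∪ N, x ∉ D1 := by
    intro x hx hx'
    simp only [mem_union] at hx
    rcases hx with (hx | hx) | hx
    · exact hd01 x hx hx'
    · exact hd21 x hx hx'
    · exact hn1 x hx' hx
  have hb1 : ∀ x, x ∉ D1 → blk G N D1 x = some x := by
    intro x hx; unfold blk; rw [if_neg hx]
  have key := hB V G Prop (Option V) K0 1 (D0 ∪ D2 ∪ N) D1 (fun x => x ∈ D0 ∪ D2) (fun _ l => l)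
    (blk G N D1) hV0 ?_ ?_ ?_
  · refine key.sub ?_
    intro x hx
    simp only [mem_union] at hx ⊢
    tauto
  · intro x hx y hy hxy
    rw [hb1 x (hb0 x hx), hb1 y (hb0 y hy)] at hxy
    exact Option.some.inj hxy
  · intro x _
    rcases hb : blk G N D1 x with _ | m
    · apply BD.cograph
      apply p4free_of_clus
      have aux : ∀ y, blk G N D1 y = none → y ∈ D1 := by
        intro y hy
        by_contra hcon
        rw [hb1 y hcon] at hy
        cases hy
      intro x hx y hy z hz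
      have hx := aux x (mf hx).2
      have hy := aux y (mf hy).2
      have hz := aux z (mf hz).2
      exact fun a b c => f1 hg hp (h.cyc 1) (h.td 1 x hx) (h.td 1 y hy) (h.td 1 z hz) a b c
    · apply BD.clq
      have aux : ∀ y, blk G N D1 y = some m → (y ∈ D1 ∧ m ∈ N ∧ G.Adj m y) ∨ y = m := by
        intro y hy
        by_cases h1 : y ∈ D1
        · left
          unfold blk at hy
          rw [if_pos h1] at hy
          by_cases h2 : ∃ n ∈ N, G.Adj n y
          · rw [if_pos h2] at hy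
            have := anc_pos h2
            rw [Option.some.inj hy] at this
            exact ⟨h1, this⟩
          · rw [if_neg h2] at hy; cases hy
        · right
          rw [hb1 y h1] at hy
          exact Option.some.inj hy
      intro y hy z hz hne
      rcases aux y (mf hy).2 with ⟨a1, a2, a3⟩ | rfl
      · rcases aux z (mf hz).2 with ⟨b1, b2, b3⟩ | rfl
        · exact f5i hg hp h a2 (hm y a1) (hm z b1) a3 b3 hne
        · exact a3.symm
      · rcases aux z (mf hz).2 with ⟨b1, b2, b3⟩ | rfl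
        · exact b3
        · exact absurd rfl hne
  · intro x hx y hy hne
    rw [mem_union] at hy
    have hbx : blk G N D1 x = if ∃ n ∈ N, G.Adj n x then some (anc G N x) else none := by
      unfold blk; rw [if_pos hx]
    rcases hy with hy | hy
    · have hy1 := hb0 y hy
      rw [mem_union] at hy
      rcases hy with hy | hy
      · refine ⟨fun _ => hy, fun _ => ?_⟩
        rw [mem_union] at hy
        rcases hy with hy | hy
        · exact (h01 y hy x hx).symm
        · exact h12 x hx y hy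
      · refine ⟨fun hadj => ?_, fun h' => ?_⟩
        · exfalso
          apply hne
          rw [hb1 y hy1, hbx, if_pos ⟨y, hy, hadj.symm⟩, h.anc_eq hg hp hy (hm x hx) hadj.symm]
        · exfalso
          change y ∈ D0 ∪ D2 at h'
          rw [mem_union] at h'
          rcases h' with h' | h'
          · exact h.nN (i := 0) (x := y) h' hy
          · exact h.nN (i := 2) (x := y) h' hy
    · have hby : blk G N D1 y = if ∃ n ∈ N, G.Adj n y then some (anc G N y) else none := by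
        unfold blk; rw [if_pos hy]
      refine ⟨fun hadj => ?_, fun h' => ?_⟩
      · exfalso
        apply hne
        by_cases h1 : ∃ n ∈ N, G.Adj n x
        · obtain ⟨n, hn, hnx⟩ := h1
          have h2 := f4 hg hp (h.cyc 1) (h.tn 1 n hn) (h.td 1 x hx) (h.td 1 y hy) hnx hadj
          rw [hbx, hby, if_pos ⟨n, hn, hnx⟩, if_pos ⟨n, hn, h2⟩, h.anc_eq hg hp hn (hm x hx) hnx,
            h.anc_eq hg hp hn (hm y hy) h2]
        · have h2 : ¬ ∃ n ∈ N, G.Adj n y := by
            rintro ⟨n, hn, hny⟩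
            exact h1 ⟨n, hn, f4 hg hp (h.cyc 1) (h.tn 1 n hn) (h.td 1 y hy) (h.td 1 x hx) hny
              hadj.symm⟩
          rw [hbx, hby, if_neg h1, if_neg h2]
      · exfalso
        change y ∈ D0 ∪ D2 at h'
        rw [mem_union] at h'
        rcases h' with h' | h'
        · exact hd01 y h' hy
        · exact hd21 y h' hy

end Pool.Agent.H797R2.ND17b
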